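import Pool.Agent.J4H25.PS.Fam
import Pool.Agent.TH658.Sos.Grp

/-!
# The local isomorphisms between two groups of class two
-/

set_option autoImplicit false
set_option linter.unusedSectionVars false

namespace Pool.Agent.J4H25.PS

open Module Pool.Agent.TH658.Sos Pool.Agent.W879.GW Pool.Agent.W185.LSQ

section

variable {F A : Type} [Field F] [AddCommGroup A] [Module F A] {g : ℕ}

/-- The family with an additional zero map. -/
def qz (q : Fin g → (Dual F A →ₗ[F] A)) : Fin (g + 1) → (Dual F A →ₗ[F] A) :=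
  Fin.cons (α := fun _ => Dual F A →ₗ[F] A) 0 q

/-- An additional component. -/
def cz (φ : Dual F A) (c : Fin g → Dual F A) : Fin (g + 1) → Dual F A :=
  Fin.cons (α := fun _ => Dual F A) φ c

theorem cz_zero (φ : Dual F A) (c : Fin g → Dual F A) : cz φ c 0 = φ := rfl

theorem cz_succ (φ : Dual F A) (c : Fin g → Dual F A) (i : Fin g) : cz φ c i.succ = c i := rfl

theorem qz_zero (q : Fin g → (Dual F A →ₗ[F] A)) : qz q 0 = 0 := rfl

theorem qz_succ (q : Fin g → (Dual F A →ₗ[F] A)) (i : Fin g) : qz q i.succ = q i := rfl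

theorem tot_qz (q : Fin g → (Dual F A →ₗ[F] A)) (φ : Dual F A) (c : Fin g → Dual F A) :
    tot (qz q) (cz φ c) = tot q c := by
  rw [tot_apply, tot_apply, Fin.sum_univ_succ, qz_zero, LinearMap.zero_apply, zero_add]
  rfl

theorem expands_qz {q : Fin g → (Dual F A →ₗ[F] A)} {m : ℕ} (h : Expands q m) :
    Expands (qz q) m := by
  intro u hu v hv W hW
  exact h u hu v hv W fun i j => hW i.succ j

theorem alt_qz {q : Fin g → (Dual F A →ₗ[F] A)} (h : ∀ (i : Fin g) (φ : Dual F A), φ (q i φ) = 0)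
    (i : Fin (g + 1)) (φ : Dual F A) : φ (qz q i φ) = 0 := by
  refine Fin.cases ?_ (fun i => ?_) i
  · rw [qz_zero, LinearMap.zero_apply, map_zero]
  · rw [qz_succ, h]

/-- The symmetric maps. -/
def Sy (F A : Type) [Field F] [AddCommGroup A] [Module F A] :
    AddSubgroup (A →ₗ[F] Dual F A) where
  carrier := {Z | ∀ x y, Z x y = Z y x}
  add_mem' := fun {Z Z'} h h' x y => by
    rw [LinearMap.add_apply, LinearMap.add_apply, LinearMap.add_apply, LinearMap.add_apply,
      h x y, h' x y]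
  zero_mem' := fun x y => rfl
  neg_mem' := fun {Z} h x y => by
    rw [LinearMap.neg_apply, LinearMap.neg_apply, LinearMap.neg_apply, LinearMap.neg_apply,
      h x y]

/-- The symmetric maps that vanish on `W`. -/
def NS (F A : Type) [Field F] [AddCommGroup A] [Module F A] (W : Submodule F A) :
    AddSubgroup (Sy F A) where
  carrier := {Z | ∀ x ∈ W, Z.1 x = 0}
  add_mem' := fun {Z Z'} h h' x hx => by
    show Z.1 x + Z'.1 x = 0
    rw [h x hx, h' x hx, add_zero]
  zero_mem' := fun x _ => rfl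
  neg_mem' := fun {Z} h x hx => by
    show -(Z.1 x) = 0
    rw [h x hx, neg_zero]

theorem NS_bot : NS F A ⊥ = ⊤ := by
  rw [eq_top_iff]
  intro Z _ x hx
  rw [Submodule.mem_bot] at hx
  rw [hx, map_zero]

theorem NS_sup (W W' : Submodule F A) : NS F A W ⊓ NS F A W' ≤ NS F A (W ⊔ W') := by
  rintro Z ⟨h1, h2⟩ x hx
  obtain ⟨y, hy, z, hz, rfl⟩ := Submodule.mem_sup.1 hx
  rw [map_add, h1 y hy, h2 z hz, add_zero]

/-- The map with an additional component. -/
def em1 (Z : A →ₗ[F] Dual F A) (N : A →ₗ[F] (Fin g → Dual F A)) :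
    A →ₗ[F] (Fin (g + 1) → Dual F A) where
  toFun x := cz (Z x) (N x)
  map_add' x y := by
    funext i
    refine Fin.cases ?_ (fun i => ?_) i
    · rw [Pi.add_apply, cz_zero, cz_zero, cz_zero, map_add]
    · rw [Pi.add_apply, cz_succ, cz_succ, cz_succ, map_add, Pi.add_apply]
  map_smul' a x := by
    funext i
    refine Fin.cases ?_ (fun i => ?_) i
    · rw [RingHom.id_apply, Pi.smul_apply, cz_zero, cz_zero, map_smul]
    · rw [RingHom.id_apply, Pi.smul_apply, cz_succ, cz_succ, map_smul, Pi.smul_apply]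

variable {q : Fin g → (Dual F A →ₗ[F] A)}

/-- The map to the larger space. -/
noncomputable def em2 (Z : A →ₗ[F] Dual F A) (M : A →ₗ[F] LinearMap.ker (tot q)) :
    A →ₗ[F] LinearMap.ker (tot (qz q)) :=
  LinearMap.codRestrict _ (em1 Z (cB M)) fun x => by
    rw [LinearMap.mem_ker]
    show tot (qz q) (cz (Z x) (cB M x)) = 0
    rw [tot_qz]
    exact LinearMap.mem_ker.1 (M x).2

theorem em2_zero (Z : A →ₗ[F] Dual F A) (M : A →ₗ[F] LinearMap.ker (tot q)) (x : A) :
    (em2 Z M x : Fin (g + 1) → Dual F A) 0 = Z x := rfl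

theorem em2_succ (Z : A →ₗ[F] Dual F A) (M : A →ₗ[F] LinearMap.ker (tot q)) (x : A)
    (i : Fin g) : (em2 Z M x : Fin (g + 1) → Dual F A) i.succ =
      (M x : Fin g → Dual F A) i := rfl

theorem em2_congr {Z : A →ₗ[F] Dual F A} {M M' : A →ₗ[F] LinearMap.ker (tot q)} {x : A}
    (h : M x = M' x) : em2 Z M x = em2 Z M' x := by
  refine Subtype.ext ?_
  show cz (Z x) (cB M x) = cz (Z x) (cB M' x)
  have h1 : cB M x = cB M' x := congrArg Subtype.val h
  rw [h1]

variable [FiniteDimensional F A]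

/-- The first group, with twist `f`. -/
abbrev GrF (q : Fin g → (Dual F A →ₗ[F] A)) (φ₀ : Dual F A) (c₀ : Fin g → Dual F A) : Type :=
  GE (bet (LinearMap.ker (tot (qz q))) (T (φ₀.smulRight (cz 0 c₀))))

/-- The second group, without twist. -/
abbrev Gr0 (q : Fin g → (Dual F A →ₗ[F] A)) : Type :=
  GE (bet (LinearMap.ker (tot (qz q))) 0)

/-- The local isomorphisms. -/
noncomputable def base (halt : ∀ (i : Fin g) (φ : Dual F A), φ (q i φ) = 0) {K : ℕ}
    (hK : 1 ≤ K) (hE : Expands q (4 * K)) (φ₀ : Dual F A) (c₀ : Fin g → Dual F A) :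
    FAct (grSys halt hE (LinearMap.ker (tot q)) rfl (T (φ₀.smulRight c₀)) φ₀ c₀ rfl)
      (NS F A) (GrF q φ₀ c₀) (Gr0 q) where
  b z M := ⟨sh (em2 z.1 M), shn (em2 z.1 M), fun x => sh_neg _ _, fun x => sh_neg' _ _⟩
  lv u := Submodule.span F {ac u}
  lv' u := Submodule.span F {ac u}
  c := 1
  inv z M n u hn := by
    have h1 : (M + n) (ac u) = M (ac u) := by
      refine om_eq fun i y => ?_
      rw [map_add, hn _ (Submodule.subset_span (Set.mem_singleton _)), add_zero]
    show sh (em2 z.1 (M + n)) u = sh (em2 z.1 M) u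
    unfold sh
    rw [em2_congr h1]
  lev z M u := rfl
  size u := by
    show finrank F (Submodule.span F {ac u}) ≤ 1
    have h6 := finrank_span_finset_le_card (R := F) ({ac u} : Finset A)
    rw [Finset.card_singleton] at h6
    unfold Set.finrank at h6
    rwa [Finset.coe_singleton] at h6
  mul z u v M hM := by
    refine sh_mul (em2 z.1 M) u v ?_
    have h1 := eq_on hK (T (φ₀.smulRight c₀)) _ (cB M) hM (x := ac u) (y := ac v)
      (Submodule.mem_sup_left (Submodule.subset_span (Set.mem_singleton _)))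
      (Submodule.mem_sup_right (Submodule.subset_span (Set.mem_singleton _)))
    funext i
    refine Fin.cases ?_ (fun i => ?_) i
    · rw [T_apply, T_apply]
      show z.1 (ac u) (ac v) - z.1 (ac v) (ac u) =
        φ₀ (ac u) * (0 : Dual F A) (ac v) - φ₀ (ac v) * (0 : Dual F A) (ac u)
      rw [z.2 (ac u) (ac v), LinearMap.zero_apply, LinearMap.zero_apply]
      ring
    · exact congrFun h1 i
  det z z' M M' u h := by
    have h1 : bc u + em2 z.1 M (ac u) = bc u + em2 z'.1 M' (ac u) := congrArg bc h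
    have h2 := add_left_cancel h1
    have h3 : z.1 (ac u) = z'.1 (ac u) := congrFun (congrArg Subtype.val h2) 0
    intro x hx
    obtain ⟨a, rfl⟩ := Submodule.mem_span_singleton.1 hx
    show z.1 (a • ac u) - z'.1 (a • ac u) = 0
    rw [map_smul, map_smul, h3, sub_self]

end

section

variable {F A : Type} [Field F] [AddCommGroup A] [Module F A] {g : ℕ}
  {B : Submodule F (Fin g → Dual F A)} {f f' : A →ₗ[F] A →ₗ[F] (Fin g → F)}

theorem bet_smul (B : Submodule F (Fin g → Dual F A)) (f : A →ₗ[F] A →ₗ[F] (Fin g → F)) (t : F)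
    (u v : A × B) : (bet B f).fn (t • u) (t • v) = (t * t) • (bet B f).fn u v := by
  rw [bet_apply, bet_apply]
  simp only [Prod.smul_fst, Prod.smul_snd, map_smul, LinearMap.smul_apply, Submodule.coe_smul]
  rw [smul_smul, smul_smul, smul_smul, smul_add, smul_sub]

/-- The automorphism given by a scalar. -/
def sc (B : Submodule F (Fin g → Dual F A)) (f : A →ₗ[F] A →ₗ[F] (Fin g → F)) (t : Fˣ) :
    GE (bet B f) ≃* GE (bet B f) where
  toFun a := mk _ ((t : F) • vc a) (((t : F) * t) • zc a)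
  invFun a := mk _ (((t⁻¹ : Fˣ) : F) • vc a) ((((t⁻¹ : Fˣ) : F) * ((t⁻¹ : Fˣ) : F)) • zc a)
  left_inv a := by
    refine GE_ext ?_ ?_
    · show ((t⁻¹ : Fˣ) : F) • (t : F) • vc a = vc a
      rw [smul_smul, Units.inv_mul, one_smul]
    · show (((t⁻¹ : Fˣ) : F) * ((t⁻¹ : Fˣ) : F)) • ((t : F) * t) • zc a = zc a
      rw [smul_smul]
      have h1 : (((t⁻¹ : Fˣ) : F) * ((t⁻¹ : Fˣ) : F)) * ((t : F) * t) =
        (((t⁻¹ : Fˣ) : F) * t) * (((t⁻¹ : Fˣ) : F) * t) := by ring
      rw [h1, Units.inv_mul, one_mul, one_smul]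
  right_inv a := by
    refine GE_ext ?_ ?_
    · show (t : F) • ((t⁻¹ : Fˣ) : F) • vc a = vc a
      rw [smul_smul, Units.mul_inv, one_smul]
    · show ((t : F) * t) • (((t⁻¹ : Fˣ) : F) * ((t⁻¹ : Fˣ) : F)) • zc a = zc a
      rw [smul_smul]
      have h1 : ((t : F) * t) * (((t⁻¹ : Fˣ) : F) * ((t⁻¹ : Fˣ) : F)) =
        (t * ((t⁻¹ : Fˣ) : F)) * (t * ((t⁻¹ : Fˣ) : F)) := by ring
      rw [h1, Units.mul_inv, one_mul, one_smul]
  map_mul' a b := by
    refine GE_ext ?_ ?_
    · show (t : F) • (vc a + vc b) = (t : F) • vc a + (t : F) • vc b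
      rw [smul_add]
    · show ((t : F) * t) • (zc a + zc b + (bet B f).fn (vc a) (vc b)) =
        ((t : F) * t) • zc a + ((t : F) * t) • zc b +
          (bet B f).fn ((t : F) • vc a) ((t : F) • vc b)
      rw [bet_smul, smul_add, smul_add]

/-- The action of a group by scalars. -/
def scH (B : Submodule F (Fin g → Dual F A)) (f : A →ₗ[F] A →ₗ[F] (Fin g → F)) {C : Type}
    [Group C] (χ : C →* Fˣ) : C →* MulAut (GE (bet B f)) where
  toFun c := sc B f (χ c)
  map_one' := by
    refine MulEquiv.ext fun a => ?_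
    refine GE_ext ?_ ?_
    · show ((χ 1 : Fˣ) : F) • vc a = vc a
      rw [map_one, Units.val_one, one_smul]
    · show (((χ 1 : Fˣ) : F) * (χ 1 : Fˣ)) • zc a = zc a
      rw [map_one, Units.val_one, one_mul, one_smul]
  map_mul' c d := by
    refine MulEquiv.ext fun a => ?_
    refine GE_ext ?_ ?_
    · show ((χ (c * d) : Fˣ) : F) • vc a = ((χ c : Fˣ) : F) • ((χ d : Fˣ) : F) • vc a
      rw [map_mul, Units.val_mul, smul_smul]
    · show (((χ (c * d) : Fˣ) : F) * (χ (c * d) : Fˣ)) • zc a =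
        (((χ c : Fˣ) : F) * (χ c : Fˣ)) • (((χ d : Fˣ) : F) * (χ d : Fˣ)) • zc a
      rw [map_mul, Units.val_mul, smul_smul]
      congr 1
      ring

theorem ac_scH {C : Type} [Group C] (χ : C →* Fˣ) (c : C) (a : GE (bet B f)) :
    ac (scH B f χ c a) = ((χ c : Fˣ) : F) • ac a := rfl

theorem span_scH {C : Type} [Group C] (χ : C →* Fˣ) (c : C) (a : GE (bet B f)) :
    Submodule.span F {ac (scH B f χ c a)} = Submodule.span F {ac a} := by
  rw [ac_scH]
  exact Submodule.span_singleton_smul_eq (Units.isUnit (χ c)) _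

theorem sh_scH {C : Type} [Group C] (χ : C →* Fˣ) (c : C) (M : A →ₗ[F] B)
    (a : GE (bet B f)) :
    (sh M (scH B f χ c a) : GE (bet B f')) = scH B f' χ c (sh M a) := by
  refine GE_ext (Prod.ext rfl ?_) rfl
  show ((χ c : Fˣ) : F) • bc a + M (((χ c : Fˣ) : F) • ac a) =
    ((χ c : Fˣ) : F) • (bc a + M (ac a))
  rw [map_smul, smul_add]

theorem shn_scH {C : Type} [Group C] (χ : C →* Fˣ) (c : C) (M : A →ₗ[F] B)
    (a : GE (bet B f)) :
    (shn M (scH B f χ c a) : GE (bet B f')) = scH B f' χ c (shn M a) := by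
  refine GE_ext (Prod.ext rfl ?_) rfl
  show ((χ c : Fˣ) : F) • bc a - M (((χ c : Fˣ) : F) • ac a) =
    ((χ c : Fˣ) : F) • (bc a - M (ac a))
  rw [map_smul]
  refine Subtype.ext ?_
  rw [Submodule.coe_sub, Submodule.coe_smul, Submodule.coe_smul, Submodule.coe_smul,
    Submodule.coe_sub]
  funext i
  refine LinearMap.ext fun y => ?_
  simp only [Pi.sub_apply, Pi.smul_apply, LinearMap.sub_apply, LinearMap.smul_apply, smul_eq_mul]
  ring

/-- The action has no fixed points. -/
theorem scH_fix {C : Type} [Group C] (χ : C →* Fˣ) (c : C) (h1 : ((χ c : Fˣ) : F) ≠ 1)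
    (h2 : ((χ c : Fˣ) : F) * (χ c : Fˣ) ≠ 1) (a : GE (bet B f)) (h : scH B f χ c a = a) :
    a = 1 := by
  have key : ∀ {V : Type} [AddCommGroup V] [Module F V] (t : F) (v : V), t ≠ 1 →
      t • v = v → v = 0 := by
    intro V _ _ t v ht hv
    have h3 : (t - 1) • v = 0 := by rw [sub_smul, one_smul, hv, sub_self]
    rcases smul_eq_zero.1 h3 with h4 | h4
    · exact absurd (sub_eq_zero.1 h4) ht
    · exact h4
  refine GE_ext ?_ ?_
  · exact key _ _ h1 (congrArg vc h)
  · exact key _ _ h2 (congrArg zc h)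

end

end Pool.Agent.J4H25.PS
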