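import Pool.Agent.J4H25.PS.Up
import Pool.Agent.W185.LSQ.Latin

/-!
# The cells that are determined by the rows of generators
-/

set_option autoImplicit false
set_option linter.unusedSectionVars false

namespace Pool.Agent.J4H25.PS

open Pool.Agent.W185.LSQ

section

variable {Γ : Type} [Group Γ]

/-- The Latin square graph. -/
abbrev LG (Γ : Type) [Group Γ] : SimpleGraph (Γ × Γ) := latinGraph fun a b : Γ => a * b

theorem row_of {h x₁ x₂ x₃ : Γ} (h12 : x₁ ≠ x₂) (h13 : x₁ ≠ x₃) (h23 : x₂ ≠ x₃) {w : Γ × Γ}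
    (a1 : w = (h, x₁) ∨ (LG Γ).Adj w (h, x₁)) (a2 : w = (h, x₂) ∨ (LG Γ).Adj w (h, x₂))
    (a3 : w = (h, x₃) ∨ (LG Γ).Adj w (h, x₃)) : w.1 = h := by
  by_contra hne
  have key : ∀ x, (w = (h, x) ∨ (LG Γ).Adj w (h, x)) → w.2 = x ∨ w.1 * w.2 = h * x := by
    rintro x (hx | ⟨-, hx | hx | hx⟩)
    · exact absurd (congrArg Prod.fst hx) hne
    · exact absurd hx hne
    · exact Or.inl hx
    · exact Or.inr hx
  rcases key _ a1 with e1 | e1 <;> rcases key _ a2 with e2 | e2 <;>
    rcases key _ a3 with e3 | e3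
  · exact h12 (e1.symm.trans e2)
  · exact h12 (e1.symm.trans e2)
  · exact h13 (e1.symm.trans e3)
  · exact h23 (mul_left_cancel (e2.symm.trans e3))
  · exact h23 (e2.symm.trans e3)
  · exact h13 (mul_left_cancel (e1.symm.trans e3))
  · exact h12 (mul_left_cancel (e1.symm.trans e2))
  · exact h12 (mul_left_cancel (e1.symm.trans e2))

theorem row_adj (h x y : Γ) : (h, y) = (h, x) ∨ (LG Γ).Adj (h, y) (h, x) := by
  by_cases hxy : (h, y) = (h, x)
  · exact Or.inl hxy
  · exact Or.inr ⟨hxy, Or.inl rfl⟩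

theorem transfer_pat {w w' t : Γ × Γ} (h : (w' = t ↔ w = t) ∧ ((LG Γ).Adj w' t ↔ (LG Γ).Adj w t))
    (h1 : w = t ∨ (LG Γ).Adj w t) : w' = t ∨ (LG Γ).Adj w' t :=
  h1.imp h.1.2 h.2.2

variable {U : List (Γ × Γ)} {x₁ x₂ x₃ : Γ}

/-- A cell in a recognized row. -/
theorem known_row (h12 : x₁ ≠ x₂) (h13 : x₁ ≠ x₃) (h23 : x₂ ≠ x₃) {h : Γ}
    (k1 : Known (LG Γ) U (h, x₁)) (k2 : Known (LG Γ) U (h, x₂)) (k3 : Known (LG Γ) U (h, x₃))
    (T : List (Γ × Γ)) (hT : ∀ t ∈ T, Known (LG Γ) U t) (y : Γ)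
    (hu : ∀ y', (∀ t ∈ T, ((h, y') = t ↔ (h, y) = t) ∧
      ((LG Γ).Adj (h, y') t ↔ (LG Γ).Adj (h, y) t)) → y' = y) : Known (LG Γ) U (h, y) := by
  refine Known.step (h, y) ((h, x₁) :: (h, x₂) :: (h, x₃) :: T) (fun t ht => ?_)
    (fun w' hw' => ?_)
  · rcases List.mem_cons.1 ht with rfl | ht
    · exact k1
    rcases List.mem_cons.1 ht with rfl | ht
    · exact k2
    rcases List.mem_cons.1 ht with rfl | ht
    · exact k3
    exact hT t ht
  · have hr : w'.1 = h := row_of h12 h13 h23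
      (transfer_pat (hw' _ (by simp)) (row_adj h x₁ y))
      (transfer_pat (hw' _ (by simp)) (row_adj h x₂ y))
      (transfer_pat (hw' _ (by simp)) (row_adj h x₃ y))
    obtain ⟨r, y'⟩ := w'
    have hr' : r = h := hr
    subst hr'
    rw [hu y' fun t ht => hw' t (by simp [ht])]

/-- One step of the closure. -/
theorem known_step (h12 : x₁ ≠ x₂) (h13 : x₁ ≠ x₃) (h23 : x₂ ≠ x₃) {Hs : List Γ}
    (h1 : (1 : Γ) ∈ Hs) (k1 : ∀ h ∈ Hs, Known (LG Γ) U (h, x₁))
    (k2 : ∀ h ∈ Hs, Known (LG Γ) U (h, x₂)) (k3 : ∀ h ∈ Hs, Known (LG Γ) U (h, x₃)) {x g : Γ}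
    (hx : ∀ h ∈ Hs, Known (LG Γ) U (h, x)) (hg : g ∈ Hs) :
    ∀ h ∈ Hs, Known (LG Γ) U (h, g * x) := by
  by_cases hg1 : g = 1
  · subst hg1
    simpa using hx
  have e1 : Known (LG Γ) U (1, g * x) := by
    refine known_row h12 h13 h23 (k1 1 h1) (k2 1 h1) (k3 1 h1) [(g, x), (1, x)] ?_ _ ?_
    · intro t ht
      rcases List.mem_cons.1 ht with rfl | ht
      · exact hx g hg
      rcases List.mem_cons.1 ht with rfl | ht
      · exact hx 1 h1
      simp at ht
    · intro y' hy'
      have a1 := hy' (g, x) (by simp)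
      have a2 := hy' (1, x) (by simp)
      have a3 : (LG Γ).Adj ((1 : Γ), g * x) (g, x) := by
        refine ⟨fun h => hg1 (congrArg Prod.fst h).symm, Or.inr (Or.inr ?_)⟩
        show 1 * (g * x) = g * x
        rw [one_mul]
      obtain ⟨-, h | h | h⟩ := a1.2.2 a3
      · exact absurd h.symm hg1
      · exfalso
        have h' : y' = x := h
        have h2 := a2.1.1 (by rw [h'])
        have h3 : g * x = x := congrArg Prod.snd h2
        exact hg1 (mul_eq_right.1 h3)
      · have h' : 1 * y' = g * x := h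
        rwa [one_mul] at h'
  have e2 : Known (LG Γ) U (g, g * x) := by
    refine known_row h12 h13 h23 (k1 g hg) (k2 g hg) (k3 g hg) [(1, g * x), (g, x)] ?_ _ ?_
    · intro t ht
      rcases List.mem_cons.1 ht with rfl | ht
      · exact e1
      rcases List.mem_cons.1 ht with rfl | ht
      · exact hx g hg
      simp at ht
    · intro y' hy'
      have a1 := hy' (1, g * x) (by simp)
      have a2 := hy' (g, x) (by simp)
      have a3 : (LG Γ).Adj (g, g * x) ((1 : Γ), g * x) :=
        ⟨fun h => hg1 (congrArg Prod.fst h), Or.inr (Or.inl rfl)⟩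
      obtain ⟨-, h | h | h⟩ := a1.2.2 a3
      · exact absurd h hg1
      · exact h
      · exfalso
        have h' : g * y' = 1 * (g * x) := h
        rw [one_mul] at h'
        have h4 : y' = x := mul_left_cancel h'
        have h2 := a2.1.1 (by rw [h4])
        have h3 : g * x = x := congrArg Prod.snd h2
        exact hg1 (mul_eq_right.1 h3)
  intro h hh
  by_cases hh1 : h = 1
  · rw [hh1]
    exact e1
  by_cases hhg : h = g
  · rw [hhg]
    exact e2
  refine known_row h12 h13 h23 (k1 h hh) (k2 h hh) (k3 h hh) [(1, g * x), (g, g * x)] ?_ _ ?_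
  · intro t ht
    rcases List.mem_cons.1 ht with rfl | ht
    · exact e1
    rcases List.mem_cons.1 ht with rfl | ht
    · exact e2
    simp at ht
  · intro y' hy'
    have a1 := hy' (1, g * x) (by simp)
    have a2 := hy' (g, g * x) (by simp)
    have b1 : (LG Γ).Adj (h, g * x) ((1 : Γ), g * x) :=
      ⟨fun h' => hh1 (congrArg Prod.fst h'), Or.inr (Or.inl rfl)⟩
    have b2 : (LG Γ).Adj (h, g * x) (g, g * x) :=
      ⟨fun h' => hhg (congrArg Prod.fst h'), Or.inr (Or.inl rfl)⟩
    obtain ⟨-, c | c | c⟩ := a1.2.2 b1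
    · exact absurd c hh1
    · exact c
    · obtain ⟨-, d | d | d⟩ := a2.2.2 b2
      · exact absurd d hhg
      · exact d
      · exfalso
        have c' : h * y' = 1 * (g * x) := c
        have d' : h * y' = g * (g * x) := d
        rw [c'] at d'
        exact hg1 (mul_right_cancel d').symm

/-- All cells are determined. -/
theorem known_all [Finite Γ] (h12 : x₁ ≠ x₂) (h13 : x₁ ≠ x₃) (h23 : x₂ ≠ x₃) {Hs : List Γ}
    (h1 : (1 : Γ) ∈ Hs) (hgen : Subgroup.closure {g | g ∈ Hs} = ⊤)
    (k1 : ∀ h ∈ Hs, Known (LG Γ) U (h, x₁))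
    (k2 : ∀ h ∈ Hs, Known (LG Γ) U (h, x₂)) (k3 : ∀ h ∈ Hs, Known (LG Γ) U (h, x₃))
    (w : Γ × Γ) : Known (LG Γ) U w := by
  classical
  have : Fintype Γ := Fintype.ofFinite Γ
  -- rows of `Hs`
  have hrow : ∀ x, ∀ h ∈ Hs, Known (LG Γ) U (h, x) := by
    have hcl : ∀ a : Γ, ∀ x, (∀ h ∈ Hs, Known (LG Γ) U (h, x)) →
        ∀ h ∈ Hs, Known (LG Γ) U (h, a * x) := by
      intro a
      have ha : a ∈ Subgroup.closure {g | g ∈ Hs} := by rw [hgen]; trivial
      induction ha using Subgroup.closure_induction with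
      | mem g hg => exact fun x hx => known_step h12 h13 h23 h1 k1 k2 k3 hx hg
      | one =>
        intro x hx
        simpa using hx
      | mul a b _ _ iha ihb =>
        intro x hx
        rw [mul_assoc]
        exact iha _ (ihb x hx)
      | inv a _ iha =>
        have hpow : ∀ n : ℕ, ∀ x, (∀ h ∈ Hs, Known (LG Γ) U (h, x)) →
            ∀ h ∈ Hs, Known (LG Γ) U (h, a ^ n * x) := by
          intro n
          induction n with
          | zero =>
            intro x hx
            simpa using hx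
          | succ n ihn =>
            intro x hx
            rw [pow_succ', mul_assoc]
            exact iha _ (ihn x hx)
        have hinv : a⁻¹ = a ^ (orderOf a - 1) := by
          rw [inv_eq_iff_mul_eq_one, ← pow_succ']
          have h3 : orderOf a - 1 + 1 = orderOf a := Nat.sub_add_cancel (orderOf_pos a)
          rw [h3, pow_orderOf_eq_one]
        rw [hinv]
        exact hpow _
    intro x
    have h2 := hcl (x * x₁⁻¹) x₁ k1
    rwa [inv_mul_cancel_right] at h2
  -- a generator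
  have hg : ∃ g ∈ Hs, g ≠ 1 := by
    by_contra hcon
    push Not at hcon
    have h3 : Subgroup.closure {g | g ∈ Hs} ≤ ⊥ := by
      rw [Subgroup.closure_le]
      intro g hg
      exact hcon g hg
    rw [hgen] at h3
    have h4 : ∀ x : Γ, x = 1 := fun x => Subgroup.mem_bot.1 (h3 (Subgroup.mem_top x))
    exact h12 ((h4 x₁).trans (h4 x₂).symm)
  obtain ⟨g, hg, hg1⟩ := hg
  obtain ⟨a, b⟩ := w
  by_cases ha1 : a = 1
  · rw [ha1]
    exact hrow b 1 h1
  by_cases hag : a = g
  · rw [hag]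
    exact hrow b g hg
  refine Known.step (a, b) ((Finset.univ : Finset Γ).toList.map (fun y => ((1 : Γ), y)) ++
    (Finset.univ : Finset Γ).toList.map (fun y => (g, y))) (fun t ht => ?_) (fun w' hw' => ?_)
  · rcases List.mem_append.1 ht with h | h
    · obtain ⟨y, -, rfl⟩ := List.mem_map.1 h
      exact hrow y 1 h1
    · obtain ⟨y, -, rfl⟩ := List.mem_map.1 h
      exact hrow y g hg
  · have p1 : ∀ y, (w' = (1, y) ↔ (a, b) = (1, y)) ∧
        ((LG Γ).Adj w' (1, y) ↔ (LG Γ).Adj (a, b) (1, y)) := fun y =>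
      hw' _ (List.mem_append.2 (Or.inl (List.mem_map.2 ⟨y, by simp, rfl⟩)))
    have pg : ∀ y, (w' = (g, y) ↔ (a, b) = (g, y)) ∧
        ((LG Γ).Adj w' (g, y) ↔ (LG Γ).Adj (a, b) (g, y)) := fun y =>
      hw' _ (List.mem_append.2 (Or.inr (List.mem_map.2 ⟨y, by simp, rfl⟩)))
    obtain ⟨a', b'⟩ := w'
    have n1 : a' ≠ 1 := by
      intro h
      have h2 := (p1 b').1.1 (by rw [h])
      exact ha1 (congrArg Prod.fst h2)
    have ng : a' ≠ g := by
      intro h
      have h2 := (pg b').1.1 (by rw [h])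
      exact hag (congrArg Prod.fst h2)
    have q1 : (LG Γ).Adj (a, b) (1, b) :=
      ⟨fun h => ha1 (congrArg Prod.fst h), Or.inr (Or.inl rfl)⟩
    have q2 : (LG Γ).Adj (a, b) (1, a * b) := by
      refine ⟨fun h => ha1 (congrArg Prod.fst h), Or.inr (Or.inr ?_)⟩
      show a * b = 1 * (a * b)
      rw [one_mul]
    have q3 : (LG Γ).Adj (a, b) (g, b) :=
      ⟨fun h => hag (congrArg Prod.fst h), Or.inr (Or.inl rfl)⟩
    have hab : a * b ≠ b := fun h => ha1 (mul_eq_right.1 h)
    obtain ⟨-, c1 | c1 | c1⟩ := (p1 b).2.2 q1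
    · exact absurd c1 n1
    · -- the second coordinates agree
      have c1' : b' = b := c1
      subst c1'
      obtain ⟨-, c2 | c2 | c2⟩ := (p1 (a * b')).2.2 q2
      · exact absurd c2 n1
      · exact absurd (show b' = a * b' from c2).symm hab
      · have c2' : a' * b' = 1 * (a * b') := c2
        rw [one_mul] at c2'
        rw [mul_right_cancel c2']
    · exfalso
      have c1' : a' * b' = 1 * b := c1
      rw [one_mul] at c1'
      obtain ⟨-, c3 | c3 | c3⟩ := (pg b).2.2 q3
      · exact ng c3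
      · have c3' : b' = b := c3
        rw [c3'] at c1'
        exact n1 (mul_eq_right.1 c1')
      · have c3' : a' * b' = g * b := c3
        rw [c1'] at c3'
        exact hg1 (mul_eq_right.1 c3'.symm)

/-- A small set of generators. -/
theorem exists_gens [Finite Γ] (k : ℕ) : ∃ l : List Γ, l.length ≤ k ∧
    (Subgroup.closure {g | g ∈ l} = ⊤ ∨ 2 ^ k ≤ Nat.card (Subgroup.closure {g | g ∈ l})) := by
  induction k with
  | zero =>
    refine ⟨[], le_rfl, Or.inr ?_⟩
    rw [pow_zero]
    exact Nat.one_le_iff_ne_zero.2 Nat.card_pos.ne'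
  | succ k ih =>
    obtain ⟨l, hl, h | h⟩ := ih
    · exact ⟨l, by omega, Or.inl h⟩
    by_cases htop : Subgroup.closure {g | g ∈ l} = ⊤
    · exact ⟨l, by omega, Or.inl htop⟩
    obtain ⟨g, hg⟩ : ∃ g, g ∉ Subgroup.closure {g | g ∈ l} := by
      by_contra hcon
      push Not at hcon
      exact htop ((Subgroup.eq_top_iff' _).2 hcon)
    refine ⟨g :: l, by rw [List.length_cons]; omega, Or.inr ?_⟩
    have hle : Subgroup.closure {g | g ∈ l} ≤ Subgroup.closure {x | x ∈ g :: l} :=
      Subgroup.closure_mono fun x hx => List.mem_cons_of_mem g hx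
    have hg2 : g ∈ Subgroup.closure {x | x ∈ g :: l} :=
      Subgroup.subset_closure (List.mem_cons_self)
    have hdvd := Subgroup.card_dvd_of_le hle
    obtain ⟨c, hc⟩ := hdvd
    have hpos : 0 < Nat.card (Subgroup.closure {g | g ∈ l}) := Nat.card_pos
    have hpos2 : 0 < Nat.card (Subgroup.closure {x | x ∈ g :: l}) := Nat.card_pos
    have hc0 : c ≠ 0 := by
      rintro rfl
      rw [mul_zero] at hc
      omega
    have hc1 : c ≠ 1 := by
      rintro rfl
      rw [mul_one] at hc
      have heq := Subgroup.eq_of_le_of_card_ge hle hc.le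
      rw [heq] at hg
      exact hg hg2
    rw [hc, pow_succ]
    exact Nat.mul_le_mul h (by omega)

end

end Pool.Agent.J4H25.PS
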