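import Pool.Agent.J4H25.PS.Base

/-!
# Counting symmetric maps
-/

set_option autoImplicit false
set_option linter.unusedSectionVars false

namespace Pool.Agent.J4H25.PS

open Module

theorem exists_basis_sum {K U : Type} [Field K] [AddCommGroup U] [Module K U]
    [FiniteDimensional K U] {α : Type} [Fintype α] {f : α → U} (hf : LinearIndependent K f) :
    ∃ e : ℕ, Fintype.card α + e = Module.finrank K U ∧
      ∃ b : Module.Basis (α ⊕ Fin e) K U, ∀ a, b (Sum.inl a) = f a := by
  obtain ⟨N, hN⟩ := Submodule.exists_isCompl (Submodule.span K (Set.range f))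
  let b1 := Module.Basis.span hf
  have h1 : Module.finrank K (Submodule.span K (Set.range f)) = Fintype.card α :=
    finrank_span_eq_card hf
  let b2 := Module.finBasis K N
  refine ⟨Module.finrank K N, ?_, (b1.prod b2).map (Submodule.prodEquivOfIsCompl _ _ hN), ?_⟩
  · rw [← h1]
    exact Submodule.finrank_add_eq_of_isCompl hN
  · intro a
    simp [b1, Module.Basis.span_apply]

section

variable {F A : Type} [Field F] [AddCommGroup A] [Module F A]

/-- A symmetric map given by coefficients. -/
def symc {r s : ℕ} (c : Fin r → Dual F A) (d : Fin s → Dual F A) (φ : Fin r → Fin s → F) :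
    A →ₗ[F] Dual F A :=
  ∑ i, ∑ j, φ i j • ((c i).smulRight (d j) + (d j).smulRight (c i))

theorem symc_apply {r s : ℕ} (c : Fin r → Dual F A) (d : Fin s → Dual F A)
    (φ : Fin r → Fin s → F) (x y : A) :
    symc c d φ x y = ∑ i, ∑ j, φ i j * (c i x * d j y + d j x * c i y) := by
  unfold symc
  rw [LinearMap.sum_apply, LinearMap.sum_apply]
  refine Finset.sum_congr rfl fun i _ => ?_
  rw [LinearMap.sum_apply, LinearMap.sum_apply]
  refine Finset.sum_congr rfl fun j _ => ?_
  simp only [LinearMap.smul_apply, LinearMap.add_apply, LinearMap.smulRight_apply, smul_eq_mul]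

theorem symc_mem {r s : ℕ} (c : Fin r → Dual F A) (d : Fin s → Dual F A)
    (φ : Fin r → Fin s → F) : symc c d φ ∈ Sy F A := by
  intro x y
  rw [symc_apply, symc_apply]
  refine Finset.sum_congr rfl fun i _ => Finset.sum_congr rfl fun j _ => ?_
  ring

theorem NS_card [Finite F] [FiniteDimensional F A] (W : Submodule F A) {R a : ℕ}
    (ha : finrank F A = a) (hR : R < finrank F W) :
    Nat.card F ^ ((R + 1) * (a - (R + 1))) * Nat.card (NS F A W) ≤ Nat.card (Sy F A) := by
  classical
  have hfinA : Finite A := Module.finite_of_finite F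
  have hfin1 : Finite (A →ₗ[F] Dual F A) := by
    have : Finite (Dual F A) := Module.finite_of_finite F
    exact Module.finite_of_finite F
  have hfin2 : Finite (Sy F A) := inferInstance
  obtain ⟨v, hv⟩ := exists_linearIndependent_of_le_finrank (R := F) (M := W) (n := R + 1) hR
  have hv2 : LinearIndependent F (fun i => (v i : A)) := hv.map' W.subtype (Submodule.ker_subtype W)
  obtain ⟨s, hs, b, hb⟩ := exists_basis_sum hv2
  rw [Fintype.card_fin, ha] at hs
  have hs2 : a - (R + 1) = s := by omega
  rw [hs2]
  let c : Fin (R + 1) → Dual F A := fun i => b.coord (Sum.inl i)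
  let d : Fin s → Dual F A := fun j => b.coord (Sum.inr j)
  have key : ∀ (φ : Fin (R + 1) → Fin s → F) i j,
      symc c d φ (b (Sum.inl i)) (b (Sum.inr j)) = φ i j := by
    intro φ i j
    rw [symc_apply]
    have h1 : ∀ i' j', φ i' j' * (c i' (b (Sum.inl i)) * d j' (b (Sum.inr j)) +
        d j' (b (Sum.inl i)) * c i' (b (Sum.inr j))) =
        if i' = i then (if j' = j then φ i' j' else 0) else 0 := by
      intro i' j'
      have e1 : c i' (b (Sum.inl i)) = if i' = i then 1 else 0 := by
        show b.repr (b (Sum.inl i)) (Sum.inl i') = _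
        rw [b.repr_self, Finsupp.single_apply]
        by_cases h : i' = i
        · rw [if_pos h, if_pos (by rw [h])]
        · rw [if_neg h, if_neg (fun h' => h (Sum.inl.inj h').symm)]
      have e2 : d j' (b (Sum.inr j)) = if j' = j then 1 else 0 := by
        show b.repr (b (Sum.inr j)) (Sum.inr j') = _
        rw [b.repr_self, Finsupp.single_apply]
        by_cases h : j' = j
        · rw [if_pos h, if_pos (by rw [h])]
        · rw [if_neg h, if_neg (fun h' => h (Sum.inr.inj h').symm)]
      have e3 : d j' (b (Sum.inl i)) = 0 := by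
        show b.repr (b (Sum.inl i)) (Sum.inr j') = _
        rw [b.repr_self, Finsupp.single_apply, if_neg (by simp)]
      rw [e1, e2, e3]
      split_ifs <;> simp
    rw [Finset.sum_congr rfl fun i' _ => Finset.sum_congr rfl fun j' _ => h1 i' j']
    simp
  let Ψ : (Fin (R + 1) → Fin s → F) × NS F A W → Sy F A := fun x =>
    ⟨symc c d x.1 + x.2.1.1, (Sy F A).add_mem (symc_mem c d x.1) x.2.1.2⟩
  have hΨ : Function.Injective Ψ := by
    rintro ⟨φ, Z⟩ ⟨φ', Z'⟩ h
    have h1 : symc c d φ + Z.1.1 = symc c d φ' + Z'.1.1 := congrArg Subtype.val h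
    have h2 : φ = φ' := by
      funext i j
      have h3 := congrArg (fun N : A →ₗ[F] Dual F A => N (b (Sum.inl i)) (b (Sum.inr j))) h1
      simp only [LinearMap.add_apply] at h3
      have hmem : b (Sum.inl i) ∈ W := by
        rw [hb]
        exact (v i).2
      rw [key, key, Z.2 _ hmem, Z'.2 _ hmem] at h3
      simpa using h3
    subst h2
    have h3 : Z.1.1 = Z'.1.1 := by
      refine LinearMap.ext fun x => LinearMap.ext fun y => ?_
      have h3 := congrArg (fun N : A →ₗ[F] Dual F A => N x y) h1
      simp only [LinearMap.add_apply] at h3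
      exact add_left_cancel h3
    exact Prod.ext rfl (Subtype.ext (Subtype.ext h3))
  have h4 := Nat.card_le_card_of_injective Ψ hΨ
  rw [Nat.card_prod] at h4
  have h5 : Nat.card (Fin (R + 1) → Fin s → F) = Nat.card F ^ ((R + 1) * s) := by
    rw [Nat.card_pi, Finset.prod_const, Nat.card_pi, Finset.prod_const, Finset.card_univ,
      Finset.card_univ, Fintype.card_fin, Fintype.card_fin, ← pow_mul, mul_comm]
  rwa [h5] at h4

end

end Pool.Agent.J4H25.PS
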