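import Pool.Agent.J4H25.PS.Red
import Pool.Agent.TH658.Sos.Pc

/-!
# Proofs whose relevant monomials have small levels
-/

set_option autoImplicit false
set_option linter.unusedSectionVars false

namespace Pool.Agent.J4H25.PS

open Finset MvPolynomial Pool.Agent.TH658.Sos

section

variable {X L : Type} [AddCommGroup X] [SemilatticeSup L] [OrderBot L] {S : Sys X L}
  {V V' : Type} {G : SimpleGraph V} {H : SimpleGraph V'} (A : Act S G H)

/-- A monomial that vanishes on all the bijections or has a small level. -/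
def Sm (R : ℕ) (m : V × V' →₀ ℕ) : Prop :=
  (∀ x, ¬ ∀ p ∈ m.support, A.b x p.1 = p.2) ∨ S.size (A.lm m) ≤ R

theorem lm_ind (m : V × V' →₀ ℕ) : A.lm (ind m) = A.lm m := by
  unfold Act.lm
  rw [ind_support]

variable (K : Type) [Field K]

theorem ev_ind (m : V × V' →₀ ℕ) : A.ev K (ind m) = A.ev K m := by
  funext x
  unfold Act.ev
  rw [ind_support]

variable [Fintype X]

theorem phi_congr [Finite V] [Finite V'] (W : L) (F : X → K) {p q : MvPolynomial (V × V') K}
    (h : BoolEq p q) : A.Phi K W F p = A.Phi K W F q := by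
  refine functional_congr _ (fun m => ?_) h
  rw [A.Phi_monomial, A.Phi_monomial, lm_ind, ev_ind]

/-- The polynomials that can be derived satisfy this condition. -/
def Good (R : ℕ) (p : MvPolynomial (V × V') K) : Prop :=
  (∀ m ∈ p.support, Sm A R m) ∧ ∀ W, S.size W ≤ R → ∀ φ : Ch X K,
    (∀ n ∈ S.N W, ch φ n = 1) → A.Phi K W (ch φ) p = 0

variable {K}

theorem ev_zero_of {m : V × V' →₀ ℕ} (h : ∀ x, ¬ ∀ p ∈ m.support, A.b x p.1 = p.2) :
    A.ev K m = fun _ => 0 := by
  funext x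
  unfold Act.ev
  exact if_neg (h x)

theorem transfer [IsAlgClosed K] (hX : (Fintype.card X : K) ≠ 0) {R c : ℕ}
    (hK : 3 * (R + c) ≤ S.K) {p : MvPolynomial (V × V') K} (hp : Good A K R p) (W : L)
    (hW : S.size W ≤ R + c) (ψ : Ch X K) (hψ : ∀ n ∈ S.N W, ch ψ n = 1) :
    A.Phi K W (ch ψ) p = 0 := by
  classical
  rw [A.Phi_eq]
  by_cases hall : ∀ m ∈ p.support, (S.avg (A.lm m ⊔ W) fun M => A.ev K m M * ch ψ M) = 0
  · exact Finset.sum_eq_zero fun m hm => by rw [hall m hm, mul_zero]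
  push Not at hall
  obtain ⟨m₀, hm₀, hne⟩ := hall
  have hsz0 : S.size (A.lm m₀) ≤ R := by
    rcases hp.1 m₀ hm₀ with h | h
    · exfalso
      apply hne
      have h1 : (fun M => A.ev K m₀ M * ch ψ M) = fun _ => (0 : K) := by
        funext M
        rw [ev_zero_of A h, zero_mul]
      rw [h1, S.avg_zero]
    · exact h
  obtain ⟨I, iI, a, χ, ha, hev⟩ := expandK hX (S.N (A.lm m₀)) (A.ev K m₀)
    (fun x n hn => A.ev_inv K m₀ x n hn)
  have h1 : (fun M => A.ev K m₀ M * ch ψ M) = fun M => ∑ i, a i * ch (χ i * ψ) M := by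
    funext M
    rw [hev, Finset.sum_mul]
    refine Finset.sum_congr rfl fun i _ => ?_
    rw [ch_mul, mul_assoc]
  rw [h1, S.avg_sum] at hne
  obtain ⟨i, -, hi⟩ := Finset.exists_ne_zero_of_sum_ne_zero hne
  rw [S.avg_smul] at hi
  have hai : a i ≠ 0 := left_ne_zero_of_mul hi
  have hav : (S.avg (A.lm m₀ ⊔ W) fun M => ch (χ i * ψ) M) ≠ 0 := right_ne_zero_of_mul hi
  have htriv : ∀ z ∈ S.D (A.lm m₀ ⊔ W), ch (χ i * ψ) z = 1 := by
    intro z hz
    by_contra h2
    exact hav (S.avg_char_zero _ (chA (χ i * ψ)) hz h2)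
  have hsz1 : S.size (A.lm m₀ ⊔ W) ≤ S.K := by
    have := S.size_sup (A.lm m₀) W
    omega
  obtain ⟨M₀, hM₀⟩ := S.nonempty _ hsz1
  have hinv1 : ∀ n ∈ S.N (A.lm m₀), ch (χ i)⁻¹ n = 1 := by
    intro n hn
    have h2 := ch_inv_mul (χ i) n
    rwa [ha i hai n hn, mul_one] at h2
  have hzero := hp.2 (A.lm m₀) hsz0 (χ i)⁻¹ hinv1
  rw [A.Phi_eq] at hzero
  have key : ∀ m ∈ p.support, (S.avg (A.lm m ⊔ W) fun M => A.ev K m M * ch ψ M) =
      ch (χ i * ψ) M₀ * S.avg (A.lm m ⊔ A.lm m₀) fun M => A.ev K m M * ch (χ i)⁻¹ M := by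
    intro m hm
    rcases hp.1 m hm with h0 | hszm
    · have h2 : (fun M => A.ev K m M * ch ψ M) = fun _ => (0 : K) := by
        funext M
        rw [ev_zero_of A h0, zero_mul]
      have h3 : (fun M => A.ev K m M * ch (χ i)⁻¹ M) = fun _ => (0 : K) := by
        funext M
        rw [ev_zero_of A h0, zero_mul]
      rw [h2, h3, S.avg_zero, S.avg_zero, mul_zero]
    have hU : S.size (A.lm m ⊔ (A.lm m₀ ⊔ W)) ≤ S.K := by
      have e1 := S.size_sup (A.lm m) (A.lm m₀ ⊔ W)
      have e2 := S.size_sup (A.lm m₀) W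
      omega
    rw [S.avg_level hX (W := A.lm m ⊔ W) (W' := A.lm m ⊔ (A.lm m₀ ⊔ W))
      (sup_le le_sup_left (le_sup_right.trans le_sup_right)) hU _ (fun x n hn => by
        rw [A.ev_inv K m x n (S.N_anti _ _ le_sup_left hn),
          Act.ch_inv_of hψ x n (S.N_anti _ _ le_sup_right hn)])]
    rw [S.avg_level hX (W := A.lm m ⊔ A.lm m₀) (W' := A.lm m ⊔ (A.lm m₀ ⊔ W))
      (sup_le le_sup_left (le_sup_left.trans le_sup_right)) hU _ (fun x n hn => by
        rw [A.ev_inv K m x n (S.N_anti _ _ le_sup_left hn),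
          Act.ch_inv_of hinv1 x n (S.N_anti _ _ le_sup_right hn)])]
    rw [← S.avg_smul]
    refine S.avg_congr (S.nonempty _ hU) fun M hM => ?_
    have hM1 : M ∈ S.Sol (A.lm m₀ ⊔ W) := S.Sol_anti _ _ le_sup_right hM
    have e1 : ch (χ i * ψ) M = ch (χ i * ψ) M₀ := by
      have e2 := htriv _ ((S.sol_iff _ _ _ hM₀).1 hM1)
      have e3 : M = (M - M₀) + M₀ := by abel
      rw [e3, ch_add, e2, one_mul]
    have e4 : ch ψ M = ch (χ i * ψ) M * ch (χ i)⁻¹ M := by
      rw [ch_mul, mul_comm (ch (χ i) M), mul_assoc, mul_comm (ch (χ i) M), ch_inv_mul, mul_one]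
    rw [e4, e1]
    ring
  have h3 : ∀ m ∈ p.support, p.coeff m * (S.avg (A.lm m ⊔ W) fun M => A.ev K m M * ch ψ M) =
      ch (χ i * ψ) M₀ * (p.coeff m * S.avg (A.lm m ⊔ A.lm m₀)
        fun M => A.ev K m M * ch (χ i)⁻¹ M) := by
    intro m hm
    rw [key m hm]
    ring
  rw [Finset.sum_congr rfl h3, ← Finset.mul_sum, hzero, mul_zero]

theorem phi_mul [IsAlgClosed K] (hX : (Fintype.card X : K) ≠ 0) {R : ℕ}
    (hK : 3 * (R + A.c) ≤ S.K) {p : MvPolynomial (V × V') K} (hp : Good A K R p)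
    (i : V × V') (W : L) (hW : S.size W ≤ R) (φ : Ch X K) (hφ : ∀ n ∈ S.N W, ch φ n = 1) :
    A.Phi K W (ch φ) (MvPolynomial.X i * p) = 0 := by
  classical
  rw [A.Phi_mul_X]
  have hinv : ∀ x, ∀ n ∈ S.N (A.lv i.1 ⊔ W),
      A.ev K (Finsupp.single i 1) (x + n) * ch φ (x + n) =
        A.ev K (Finsupp.single i 1) x * ch φ x := by
    intro x n hn
    rw [A.ev_inv K _ x n (by
      rw [A.lm_single i one_ne_zero]
      exact S.N_anti _ _ le_sup_left hn), Act.ch_inv_of hφ x n (S.N_anti _ _ le_sup_right hn)]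
  obtain ⟨I, iI, a, χ, ha, hev⟩ := expandK hX (S.N (A.lv i.1 ⊔ W))
    (fun M => A.ev K (Finsupp.single i 1) M * ch φ M) hinv
  have h1 : (fun M => A.ev K (Finsupp.single i 1) M * ch φ M) =
      fun M => ∑ j, a j * ch (χ j) M := funext hev
  rw [h1, A.Phi_sum]
  refine Finset.sum_eq_zero fun j _ => ?_
  by_cases haj : a j = 0
  · rw [haj, zero_mul]
  · rw [transfer A hX hK hp _ (by
      have e1 := S.size_sup (A.lv i.1) W
      have e2 := A.size i.1
      omega) (χ j) (ha j haj), mul_zero]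

variable [Fintype V] [Fintype V']

theorem phi_ax (hX : (Fintype.card X : K) ≠ 0) {R : ℕ}
    (hK : R + 2 * A.c ≤ S.K) {p : MvPolynomial (V × V') K}
    (hp : IsoAxiom K G H p) (W : L) (hW : S.size W ≤ R) (φ : Ch X K)
    (hφ : ∀ n ∈ S.N W, ch φ n = 1) : A.Phi K W (ch φ) p = 0 := by
  classical
  have hX1 : ∀ q : V × V', (MvPolynomial.X q : MvPolynomial (V × V') K) =
      monomial (Finsupp.single q 1) 1 := fun q => rfl
  have h11 : (1 : MvPolynomial (V × V') K) = monomial 0 1 := rfl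
  have hphi1 : A.Phi K W (ch φ) 1 = S.avg W (ch φ) := by
    rw [h11, A.Phi_monomial, one_mul]
    have h2 : A.lm 0 = ⊥ := by
      unfold Act.lm
      simp
    rw [h2, bot_sup_eq]
    congr 1
    funext M
    unfold Act.ev
    simp
  have hsz : ∀ u : V, S.size (A.lv u ⊔ W) ≤ S.K := by
    intro u
    have e1 := S.size_sup (A.lv u) W
    have e2 := A.size u
    omega
  have hlev : ∀ u : V, S.avg W (ch φ) = S.avg (A.lv u ⊔ W) (ch φ) := fun u =>
    S.avg_level hX le_sup_right (hsz u) _ fun x n hn => Act.ch_inv_of hφ x n hn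
  cases hp with
  | bool u v =>
    rw [map_sub, X_pow_eq_monomial, hX1, A.Phi_monomial, A.Phi_monomial,
      A.lm_single _ two_ne_zero, A.lm_single _ one_ne_zero, sub_eq_zero]
    congr 2
    funext M
    rw [A.ev_single K _ two_ne_zero, A.ev_single K _ one_ne_zero]
  | row u =>
    rw [map_sub, map_sum, hphi1, sub_eq_zero]
    simp only [hX1, A.Phi_monomial, A.lm_single _ one_ne_zero, one_mul]
    rw [← S.avg_sum, hlev u]
    congr 1
    funext M
    simp only [A.ev_single K _ one_ne_zero]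
    rw [← Finset.sum_mul, Finset.sum_ite_eq]
    simp
  | col v =>
    rw [map_sub, map_sum, hphi1, sub_eq_zero]
    simp only [hX1, A.Phi_monomial, A.lm_single _ one_ne_zero, one_mul]
    let u0 : V := (A.b 0).symm v
    have hu0 : A.lv u0 = A.lv' v := by
      rw [← A.lev 0 u0]
      show A.lv' ((A.b 0) ((A.b 0).symm v)) = _
      rw [Equiv.apply_symm_apply]
    have h2 : ∀ u : V, S.avg (A.lv u ⊔ W)
        (fun M => A.ev K (Finsupp.single (u, v) 1) M * ch φ M) =
        S.avg (A.lv u0 ⊔ W)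
        (fun M => A.ev K (Finsupp.single (u, v) 1) M * ch φ M) := by
      intro u
      by_cases hu : A.lv u = A.lv' v
      · rw [hu, hu0]
      · have h3 : (fun M => A.ev K (Finsupp.single (u, v) 1) M * ch φ M) =
            fun _ => (0 : K) := by
          funext M
          rw [A.ev_single K _ one_ne_zero, if_neg, zero_mul]
          intro h4
          apply hu
          rw [← A.lev M u]
          exact congrArg A.lv' h4
        rw [h3, S.avg_zero, S.avg_zero]
    rw [Finset.sum_congr rfl fun u _ => h2 u, ← S.avg_sum, hlev u0]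
    congr 1
    funext M
    simp only [A.ev_single K _ one_ne_zero]
    have h5 : ∀ u : V, (if A.b M u = v then (1 : K) else 0) =
        if u = (A.b M).symm v then 1 else 0 := by
      intro u
      by_cases h6 : A.b M u = v
      · rw [if_pos h6, if_pos]
        rw [← h6, Equiv.symm_apply_apply]
      · rw [if_neg h6, if_neg]
        intro h7
        apply h6
        rw [h7, Equiv.apply_symm_apply]
    rw [← Finset.sum_mul, Finset.sum_congr rfl fun u _ => h5 u, Finset.sum_ite_eq']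
    simp
  | pair u u' v v' h =>
    have h1 : ((MvPolynomial.X (u, v) : MvPolynomial (V × V') K) * MvPolynomial.X (u', v')) =
        monomial (Finsupp.single (u, v) 1 + Finsupp.single (u', v') 1) 1 := by
      rw [MvPolynomial.X, MvPolynomial.X, monomial_mul, mul_one]
    rw [h1, A.Phi_monomial, one_mul, A.lm_add, A.lm_single _ one_ne_zero,
      A.lm_single _ one_ne_zero]
    have hsz2 : S.size (A.lv u ⊔ A.lv u' ⊔ W) ≤ S.K := by
      have e1 := S.size_sup (A.lv u ⊔ A.lv u') W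
      have e2 := S.size_sup (A.lv u) (A.lv u')
      have e3 := A.size u
      have e4 := A.size u'
      omega
    rw [S.avg_congr (G := fun _ => (0 : K)) (S.nonempty _ hsz2), S.avg_zero]
    intro M hM
    rw [A.ev_add, A.ev_single K _ one_ne_zero, A.ev_single K _ one_ne_zero]
    by_cases h3 : A.b M u = v
    · by_cases h4 : A.b M u' = v'
      · exfalso
        apply h
        rw [← h3, ← h4]
        exact ⟨(A.b M).injective.eq_iff.symm, A.iso u u' M (S.Sol_anti _ _ le_sup_left hM)⟩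
      · rw [if_neg h4, mul_zero, zero_mul]
    · rw [if_neg h3, zero_mul, zero_mul]

theorem good_of_pcIn [IsAlgClosed K] (hX : (Fintype.card X : K) ≠ 0) {R : ℕ}
    (hK : 3 * (R + A.c) ≤ S.K) {M : Finset (V × V' →₀ ℕ)} (hM : ∀ m ∈ M, Sm A R m)
    {p : MvPolynomial (V × V') K} (hp : PCIn (IsoAxiom K G H) M p) : Good A K R p := by
  induction hp with
  | ax p q h hq hs =>
    refine ⟨fun m hm => hM m (hs hm), fun W hW φ hφ => ?_⟩
    rw [← phi_congr A K W (ch φ) hq]
    exact phi_ax A hX (by omega) h W hW φ hφ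
  | lin c d p q r _ _ hr hs h1 h2 =>
    refine ⟨fun m hm => hM m (hs hm), fun W hW φ hφ => ?_⟩
    rw [← phi_congr A K W (ch φ) hr, map_add, C_mul', C_mul', map_smul, map_smul,
      h1.2 W hW φ hφ, h2.2 W hW φ hφ, smul_zero, smul_zero, add_zero]
  | mul i p q _ hq hs h1 =>
    refine ⟨fun m hm => hM m (hs hm), fun W hW φ hφ => ?_⟩
    rw [← phi_congr A K W (ch φ) hq]
    exact phi_mul A hX hK h1 i W hW φ hφ

theorem pcIn_map {K' : Type} [Field K'] (f : K →+* K') {M : Finset (V × V' →₀ ℕ)}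
    {p : MvPolynomial (V × V') K} (hp : PCIn (IsoAxiom K G H) M p) :
    PCIn (IsoAxiom K' G H) M (map f p) := by
  induction hp with
  | ax p q h hq hs =>
    exact PCIn.ax _ _ (isoAxiom_map f h) (hq.map f) ((support_map_subset f q).trans hs)
  | lin c d p q r _ _ hr hs h1 h2 =>
    refine PCIn.lin (f c) (f d) _ _ _ h1 h2 ?_ ((support_map_subset f r).trans hs)
    have h3 := hr.map f
    rwa [map_add, map_mul, map_mul, map_C, map_C] at h3
  | mul i p q _ hq hs h1 =>
    refine PCIn.mul i _ _ h1 ?_ ((support_map_subset f q).trans hs)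
    have h3 := hq.map f
    rwa [map_mul, map_X] at h3

/-- No refutation in the polynomial calculus. -/
theorem not_pcRefIn (F : Type) [Field F] (hX : (Fintype.card X : F) ≠ 0) {R : ℕ}
    (hK : 3 * (R + A.c) ≤ S.K) {M : Finset (V × V' →₀ ℕ)} (hM : ∀ m ∈ M, Sm A R m) :
    ¬ PCRefIn F G H M := by
  intro h
  have h1 := pcIn_map (algebraMap F (AlgebraicClosure F)) h
  rw [map_one] at h1
  have hX' : (Fintype.card X : AlgebraicClosure F) ≠ 0 := by
    intro h2
    apply hX
    apply (algebraMap F (AlgebraicClosure F)).injective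
    rw [map_natCast, map_zero, h2]
  have h2 := good_of_pcIn A hX' hK hM h1
  have h3 := h2.2 ⊥ (by rw [S.size_bot]; exact Nat.zero_le _) 1 (fun n _ => rfl)
  have h11 : (1 : MvPolynomial (V × V') (AlgebraicClosure F)) = monomial 0 1 := rfl
  rw [h11, A.Phi_monomial, one_mul] at h3
  have h4 : (fun M => A.ev (AlgebraicClosure F) 0 M * ch (1 : Ch X (AlgebraicClosure F)) M) =
      fun _ => (1 : AlgebraicClosure F) := by
    funext M
    have h5 : ch (1 : Ch X (AlgebraicClosure F)) M = 1 := rfl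
    rw [h5, mul_one]
    unfold Act.ev
    simp
  rw [h4, S.avg_one hX'] at h3
  exact one_ne_zero h3

theorem E_congr {p q : MvPolynomial (V × V') ℝ} (h : BoolEq p q) : A.E ℝ p = A.E ℝ q := by
  refine functional_congr _ (fun m => ?_) h
  rw [A.E_monomial, A.E_monomial]
  unfold Act.em
  rw [lm_ind, ev_ind]

theorem E_of_pcIn {R : ℕ} (hK : 3 * (R + A.c) ≤ S.K) {M : Finset (V × V' →₀ ℕ)}
    (hM : ∀ m ∈ M, Sm A R m) {p : MvPolynomial (V × V') ℝ}
    (hp : PCIn (IsoAxiom ℝ G H) M p) : A.E ℝ p = 0 := by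
  have h1 := pcIn_map (algebraMap ℝ ℂ) hp
  have hX' : (Fintype.card X : ℂ) ≠ 0 := Nat.cast_ne_zero.2 Fintype.card_ne_zero
  have h2 := good_of_pcIn A hX' hK hM h1
  have h3 := h2.2 ⊥ (by rw [S.size_bot]; exact Nat.zero_le _) 1 (fun n _ => rfl)
  have h4 : ∀ q : MvPolynomial (V × V') ℝ,
      A.Phi ℂ ⊥ (ch (1 : Ch X ℂ)) (map (algebraMap ℝ ℂ) q) = ((A.E ℝ q : ℝ) : ℂ) := by
    intro q
    rw [q.as_sum, map_sum, map_sum, map_sum]
    push_cast
    refine Finset.sum_congr rfl fun m _ => ?_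
    rw [map_monomial, A.Phi_monomial, A.E_monomial]
    unfold Act.em
    push_cast
    rw [S.avg_ofReal, sup_bot_eq]
    have h5 : (fun M => A.ev ℂ m M * ch (1 : Ch X ℂ) M) = fun M => ((A.ev ℝ m M : ℝ) : ℂ) := by
      funext M
      have h6 : ch (1 : Ch X ℂ) M = 1 := rfl
      rw [h6, mul_one]
      unfold Act.ev
      split_ifs <;> simp
    rw [h5]
    rfl
  rw [h4] at h3
  exact_mod_cast h3

theorem E_sq {q : MvPolynomial (V × V') ℝ} {R : ℕ} (hq : ∀ m ∈ q.support, Sm A R m)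
    (hK : 3 * R ≤ S.K) : 0 ≤ A.E ℝ (q ^ 2) := by
  classical
  let T : Finset (V × V' →₀ ℕ) := q.support.filter fun m => S.size (A.lm m) ≤ R
  have hcut : ∀ i ∈ q.support, i ∉ T → A.ev ℝ i = fun _ => 0 := by
    intro i hi hT
    rcases hq i hi with h | h
    · exact ev_zero_of A h
    · exact absurd (Finset.mem_filter.2 ⟨hi, h⟩) hT
  have h1 : A.E ℝ (q ^ 2) = ∑ i : T, ∑ j : T,
      S.avg (A.lm i.1 ⊔ A.lm j.1) (fun x => (q.coeff i.1 * A.ev ℝ i.1 x) *
        (q.coeff j.1 * A.ev ℝ j.1 x)) := by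
    have e1 : q ^ 2 = ∑ i ∈ q.support, ∑ j ∈ q.support,
        monomial (i + j) (q.coeff i * q.coeff j) := by
      conv_lhs => rw [q.as_sum, sq, Finset.sum_mul_sum]
      refine Finset.sum_congr rfl fun i _ => Finset.sum_congr rfl fun j _ => ?_
      rw [monomial_mul]
    have e2 : ∀ i j : V × V' →₀ ℕ, A.E ℝ (monomial (i + j) (q.coeff i * q.coeff j)) =
        S.avg (A.lm i ⊔ A.lm j) (fun x => (q.coeff i * A.ev ℝ i x) *
        (q.coeff j * A.ev ℝ j x)) := by
      intro i j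
      rw [A.E_monomial, Act.em, A.lm_add, ← S.avg_smul]
      congr 1
      funext M
      rw [A.ev_add]
      ring
    have e3 : ∀ i j : V × V' →₀ ℕ, (A.ev ℝ i = fun _ => 0) ∨ (A.ev ℝ j = fun _ => 0) →
        S.avg (A.lm i ⊔ A.lm j) (fun x => (q.coeff i * A.ev ℝ i x) *
        (q.coeff j * A.ev ℝ j x)) = 0 := by
      intro i j h
      have e4 : (fun x => (q.coeff i * A.ev ℝ i x) * (q.coeff j * A.ev ℝ j x)) =
          fun _ => (0 : ℝ) := by
        funext x
        rcases h with h | h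
        · rw [h]
          ring
        · rw [h]
          ring
      rw [e4, S.avg_zero]
    rw [e1, map_sum]
    simp only [map_sum, e2]
    have hsub : T ⊆ q.support := Finset.filter_subset _ _
    rw [← Finset.sum_subset hsub (fun i hi hT => Finset.sum_eq_zero fun j _ =>
      e3 i j (Or.inl (hcut i hi hT)))]
    rw [← Finset.sum_coe_sort]
    refine Finset.sum_congr rfl fun i _ => ?_
    rw [← Finset.sum_subset hsub (fun j hj hT => e3 i j (Or.inr (hcut j hj hT)))]
    rw [← Finset.sum_coe_sort]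
  rw [h1]
  refine S.psd (fun i : T => A.lm i.1) R (fun i => ?_) hK
    (fun i x => q.coeff i.1 * A.ev ℝ i.1 x) (fun i x n hn => ?_)
  · exact (Finset.mem_filter.1 i.2).2
  · rw [A.ev_inv ℝ i.1 x n hn]

/-- No refutation in the Positivstellensatz calculus. -/
theorem not_posRefIn {R : ℕ} (hK : 3 * (R + A.c) ≤ S.K) {M : Finset (V × V' →₀ ℕ)}
    (hM : ∀ m ∈ M, Sm A R m) : ¬ PosRefIn G H M := by
  rintro ⟨k, q, r, hq, hr, hp⟩
  have h1 := E_of_pcIn A hK hM hp
  have hX : (Fintype.card X : ℝ) ≠ 0 := Nat.cast_ne_zero.2 Fintype.card_ne_zero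
  rw [← E_congr A hr, map_add, map_sum, A.E_one ℝ hX] at h1
  have h2 : 0 ≤ ∑ i, A.E ℝ (q i ^ 2) := Finset.sum_nonneg fun i _ =>
    E_sq A (fun m hm => hM m (hq i hm)) (by omega)
  linarith

end

end Pool.Agent.J4H25.PS
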