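import Mathlib

/-!
# Products of two Frobenius-like groups
-/

set_option autoImplicit false
set_option linter.unusedSectionVars false

namespace Pool.Agent.J4H25.PS

/-- The action has no fixed points and the group has no elements of order three. -/
structure FPF {C N : Type} [CommGroup C] [Group N] (φ : C →* MulAut N) : Prop where
  fix : ∀ c, c ≠ 1 → ∀ n, φ c n = n → n = 1
  three : ∀ n : N, n ^ 3 = 1 → n = 1

section

variable {C N : Type} [CommGroup C] [Group N] [Finite N] {φ : C →* MulAut N}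

theorem FPF.surj (h : FPF φ) {c : C} (hc : c ≠ 1) (n : N) : ∃ g : N, n = g * (φ c g)⁻¹ := by
  have hinj : Function.Injective fun g : N => g * (φ c g)⁻¹ := by
    intro g g' hg
    have hg' : g * (φ c g)⁻¹ = g' * (φ c g')⁻¹ := hg
    have h1 : φ c (g'⁻¹ * g) = g'⁻¹ * g := by
      rw [map_mul, map_inv]
      have h2 : g'⁻¹ * g = (φ c g')⁻¹ * φ c g := by
        have h3 : g'⁻¹ * (g * (φ c g)⁻¹) * φ c g = g'⁻¹ * (g' * (φ c g')⁻¹) * φ c g := by
          rw [hg']
        have h4 : g'⁻¹ * (g * (φ c g)⁻¹) * φ c g = g'⁻¹ * g := by group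
        have h5 : g'⁻¹ * (g' * (φ c g')⁻¹) * φ c g = (φ c g')⁻¹ * φ c g := by group
        rw [h4, h5] at h3
        exact h3
      exact h2.symm
    have h6 := h.fix c hc _ h1
    have h7 : g = g' * (g'⁻¹ * g) := by group
    rw [h7, h6, mul_one]
  obtain ⟨g, hg⟩ := (Finite.injective_iff_surjective.1 hinj) n
  exact ⟨g, hg.symm⟩

theorem comm_right (x k : N ⋊[φ] C) : (x * k * x⁻¹ * k⁻¹).right = 1 := by
  simp only [SemidirectProduct.mul_right, SemidirectProduct.inv_right]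
  rw [mul_comm x.right k.right, mul_assoc k.right, mul_inv_cancel, mul_one, mul_inv_cancel]

theorem left_mul {a b : N ⋊[φ] C} (ha : a.right = 1) : (a * b).left = a.left * b.left := by
  rw [SemidirectProduct.mul_left, ha, map_one]
  rfl

theorem FPF.cent (h : FPF φ) {k : N ⋊[φ] C} (hk : k ≠ 1) (hk3 : k ^ 3 = 1) {n : N}
    (hn : SemidirectProduct.inl n * k = k * SemidirectProduct.inl n) : n = 1 := by
  have hc : k.right ≠ 1 := by
    intro hc
    have h1 : k = SemidirectProduct.inl k.left := SemidirectProduct.ext rfl hc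
    rw [h1, ← map_pow] at hk3
    have h2 : k.left ^ 3 = 1 :=
      SemidirectProduct.inl_injective (φ := φ) (hk3.trans (map_one _).symm)
    apply hk
    rw [h1, h.three _ h2, map_one]
  obtain ⟨g, hg⟩ := h.surj hc k.left
  have h1 : n * k.left = k.left * φ k.right n := by
    have h2 := congrArg SemidirectProduct.left hn
    simpa using h2
  have h3 : φ k.right (g⁻¹ * n * g) = g⁻¹ * n * g := by
    rw [map_mul, map_mul, map_inv]
    have h4 : φ k.right n = k.left⁻¹ * n * k.left := by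
      rw [mul_assoc, h1]
      group
    rw [h4, hg]
    group
  have h5 := h.fix _ hc _ h3
  have h6 : n = g * (g⁻¹ * n * g) * g⁻¹ := by group
  rw [h6, h5]
  group

theorem FPF.inj (h : FPF φ) {k : N ⋊[φ] C} (hk : k ≠ 1) (hk3 : k ^ 3 = 1) {a b : N}
    (hab : SemidirectProduct.inl a * k * (SemidirectProduct.inl a)⁻¹ * k⁻¹ =
      SemidirectProduct.inl b * k * (SemidirectProduct.inl b)⁻¹ * k⁻¹) : a = b := by
  have h1 : b⁻¹ * a = 1 := by
    refine h.cent hk hk3 ?_
    have h2 := mul_right_cancel hab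
    rw [map_mul, map_inv]
    calc (SemidirectProduct.inl b)⁻¹ * SemidirectProduct.inl a * k =
        (SemidirectProduct.inl b)⁻¹ * (SemidirectProduct.inl a * k *
          (SemidirectProduct.inl a)⁻¹) * SemidirectProduct.inl a := by group
      _ = (SemidirectProduct.inl b)⁻¹ * (SemidirectProduct.inl b * k *
          (SemidirectProduct.inl b)⁻¹) * SemidirectProduct.inl a := by rw [h2]
      _ = _ := by group
  have h3 : a = b * (b⁻¹ * a) := by group
  rw [h3, h1, mul_one]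

end

section

variable {C N₁ N₂ N₃ N₄ : Type} [CommGroup C] [Group N₁] [Group N₂] [Group N₃] [Group N₄]
  [Finite N₁] [Finite N₂] [Finite N₃] [Finite N₄] {φ₁ : C →* MulAut N₁} {φ₂ : C →* MulAut N₂}
  {φ₃ : C →* MulAut N₃} {φ₄ : C →* MulAut N₄}

theorem pair_iso (hC : ∀ c : C, c ^ 3 = 1) {c₀ : C} (hc₀ : c₀ ≠ 1) (h1 : FPF φ₁) (h3 : FPF φ₃)
    (h4 : FPF φ₄) {m : ℕ} (hm : 1 < m) (e1 : Nat.card N₁ = m) (e3 : Nat.card N₃ = m)
    (e4 : Nat.card N₄ = m)
    (θ : (N₁ ⋊[φ₁] C) × (N₂ ⋊[φ₂] C) ≃* (N₃ ⋊[φ₃] C) × (N₄ ⋊[φ₄] C)) :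
    Nonempty (N₁ ≃* N₃) ∨ Nonempty (N₁ ≃* N₄) := by
  classical
  let t : (N₁ ⋊[φ₁] C) × (N₂ ⋊[φ₂] C) := (SemidirectProduct.inr c₀, 1)
  have ht3 : t ^ 3 = 1 := by
    refine Prod.ext ?_ ?_
    · show (SemidirectProduct.inr c₀ : N₁ ⋊[φ₁] C) ^ 3 = 1
      rw [← map_pow, hC, map_one]
    · show (1 : N₂ ⋊[φ₂] C) ^ 3 = 1
      rw [one_pow]
  have hk3 : (θ t).1 ^ 3 = 1 := by
    have h := congrArg Prod.fst (congrArg θ ht3)
    rwa [map_pow, map_one] at h
  have hk4 : (θ t).2 ^ 3 = 1 := by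
    have h := congrArg Prod.snd (congrArg θ ht3)
    rwa [map_pow, map_one] at h
  -- the elements of the first kernel are commutators with `t`
  have hcom : ∀ n : N₁, ∃ x : (N₁ ⋊[φ₁] C) × (N₂ ⋊[φ₂] C),
      ((SemidirectProduct.inl n, 1) : (N₁ ⋊[φ₁] C) × (N₂ ⋊[φ₂] C)) = x * t * x⁻¹ * t⁻¹ := by
    intro n
    obtain ⟨g, hg⟩ := h1.surj hc₀ n
    refine ⟨(SemidirectProduct.inl g, 1), Prod.ext ?_ ?_⟩
    · show (SemidirectProduct.inl n : N₁ ⋊[φ₁] C) = SemidirectProduct.inl g *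
        SemidirectProduct.inr c₀ * (SemidirectProduct.inl g)⁻¹ * (SemidirectProduct.inr c₀)⁻¹
      rw [hg, map_mul, map_inv, SemidirectProduct.inl_aut]
      simp only [map_inv, mul_inv_rev, inv_inv, mul_assoc]
    · show (1 : N₂ ⋊[φ₂] C) = 1 * 1 * 1⁻¹ * 1⁻¹
      group
  have hcom' : ∀ n : N₁, ∃ y : (N₃ ⋊[φ₃] C) × (N₄ ⋊[φ₄] C),
      θ (SemidirectProduct.inl n, 1) = y * θ t * y⁻¹ * (θ t)⁻¹ := by
    intro n
    obtain ⟨x, hx⟩ := hcom n
    refine ⟨θ x, ?_⟩
    rw [hx, map_mul, map_mul, map_mul, map_inv, map_inv]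
  have hr3 : ∀ n : N₁, (θ (SemidirectProduct.inl n, 1)).1.right = 1 := by
    intro n
    obtain ⟨y, hy⟩ := hcom' n
    rw [hy]
    exact comm_right _ _
  have hr4 : ∀ n : N₁, (θ (SemidirectProduct.inl n, 1)).2.right = 1 := by
    intro n
    obtain ⟨y, hy⟩ := hcom' n
    rw [hy]
    exact comm_right _ _
  have hmul : ∀ a b : N₁, θ (SemidirectProduct.inl (a * b), 1) =
      θ (SemidirectProduct.inl a, 1) * θ (SemidirectProduct.inl b, 1) := by
    intro a b
    rw [← map_mul, Prod.mk_mul_mk, map_mul, mul_one]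
  by_cases hk4' : (θ t).2 = 1
  · left
    let ψ : N₁ →* N₃ := MonoidHom.mk' (fun n => (θ (SemidirectProduct.inl n, 1)).1.left)
      fun a b => by
        show (θ (SemidirectProduct.inl (a * b), 1)).1.left = _
        rw [hmul, Prod.fst_mul, left_mul (hr3 a)]
    have hinj : Function.Injective ψ := by
      rw [injective_iff_map_eq_one]
      intro n hn
      have e5 : (θ (SemidirectProduct.inl n, 1)).1 = 1 := SemidirectProduct.ext hn (hr3 n)
      have e6 : (θ (SemidirectProduct.inl n, 1)).2 = 1 := by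
        obtain ⟨y, hy⟩ := hcom' n
        rw [hy]
        show y.2 * (θ t).2 * y.2⁻¹ * (θ t).2⁻¹ = 1
        rw [hk4']
        group
      have e7 : θ (SemidirectProduct.inl n, 1) = 1 := Prod.ext e5 e6
      have e8 := θ.injective (e7.trans (map_one θ).symm)
      have e9 := congrArg (fun z : (N₁ ⋊[φ₁] C) × (N₂ ⋊[φ₂] C) => z.1.left) e8
      exact e9
    exact ⟨MulEquiv.ofBijective ψ ((Nat.bijective_iff_injective_and_card ψ).2
      ⟨hinj, by rw [e1, e3]⟩)⟩
  by_cases hk3' : (θ t).1 = 1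
  · right
    let ψ : N₁ →* N₄ := MonoidHom.mk' (fun n => (θ (SemidirectProduct.inl n, 1)).2.left)
      fun a b => by
        show (θ (SemidirectProduct.inl (a * b), 1)).2.left = _
        rw [hmul, Prod.snd_mul, left_mul (hr4 a)]
    have hinj : Function.Injective ψ := by
      rw [injective_iff_map_eq_one]
      intro n hn
      have e5 : (θ (SemidirectProduct.inl n, 1)).2 = 1 := SemidirectProduct.ext hn (hr4 n)
      have e6 : (θ (SemidirectProduct.inl n, 1)).1 = 1 := by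
        obtain ⟨y, hy⟩ := hcom' n
        rw [hy]
        show y.1 * (θ t).1 * y.1⁻¹ * (θ t).1⁻¹ = 1
        rw [hk3']
        group
      have e7 : θ (SemidirectProduct.inl n, 1) = 1 := Prod.ext e6 e5
      have e8 := θ.injective (e7.trans (map_one θ).symm)
      have e9 := congrArg (fun z : (N₁ ⋊[φ₁] C) × (N₂ ⋊[φ₂] C) => z.1.left) e8
      exact e9
    exact ⟨MulEquiv.ofBijective ψ ((Nat.bijective_iff_injective_and_card ψ).2
      ⟨hinj, by rw [e1, e4]⟩)⟩
  exfalso
  -- too many commutators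
  let w : N₃ × N₄ → (N₃ ⋊[φ₃] C) × (N₄ ⋊[φ₄] C) := fun z =>
    (SemidirectProduct.inl z.1, SemidirectProduct.inl z.2)
  let κ : N₃ × N₄ → N₁ := fun z => (θ.symm (w z * θ t * (w z)⁻¹ * (θ t)⁻¹)).1.left
  have hκ1 : ∀ z, θ.symm (w z * θ t * (w z)⁻¹ * (θ t)⁻¹) =
      θ.symm (w z) * t * (θ.symm (w z))⁻¹ * t⁻¹ := by
    intro z
    rw [map_mul, map_mul, map_mul, map_inv, map_inv, MulEquiv.symm_apply_apply]
  have hκ : Function.Injective κ := by
    intro z z' hz
    have f1 : (θ.symm (w z * θ t * (w z)⁻¹ * (θ t)⁻¹)).1 =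
        (θ.symm (w z' * θ t * (w z')⁻¹ * (θ t)⁻¹)).1 := by
      refine SemidirectProduct.ext hz ?_
      rw [hκ1, hκ1]
      exact (comm_right _ _).trans (comm_right _ _).symm
    have f2 : ∀ z, (θ.symm (w z * θ t * (w z)⁻¹ * (θ t)⁻¹)).2 = 1 := by
      intro z
      rw [hκ1]
      show (θ.symm (w z)).2 * 1 * ((θ.symm (w z)).2)⁻¹ * 1⁻¹ = 1
      group
    have f3 := θ.symm.injective (Prod.ext f1 ((f2 z).trans (f2 z').symm))
    refine Prod.ext ?_ ?_
    · exact h3.inj hk3' hk3 (congrArg Prod.fst f3)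
    · exact h4.inj hk4' hk4 (congrArg Prod.snd f3)
  have h5 := Nat.card_le_card_of_injective κ hκ
  rw [Nat.card_prod, e1, e3, e4] at h5
  have h6 : m * 1 < m * m := Nat.mul_lt_mul_of_pos_left hm (by omega)
  omega

end

/-- Direct factors of coprime exponents can be cancelled. -/
theorem cancel {p q : ℕ} (hpq : Nat.Coprime p q) {G H H' : Type} [Group G] [Group H] [Group H']
    [Finite H] [Finite H'] (hG : ∀ x : G, x ^ p = 1) (hH : ∀ x : H, x ^ q = 1)
    (hc : Nat.card H = Nat.card H') (θ : G × H ≃* G × H') : Nonempty (H ≃* H') := by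
  have h0 : ∀ x : G, x ^ q = 1 → x = 1 := by
    intro x hx
    have h1 : orderOf x ∣ p := orderOf_dvd_of_pow_eq_one (hG x)
    have h2 : orderOf x ∣ q := orderOf_dvd_of_pow_eq_one hx
    exact orderOf_eq_one_iff.1 (Nat.eq_one_of_dvd_coprimes hpq h1 h2)
  have h1 : ∀ y : H, (θ (1, y)).1 = 1 := by
    intro y
    refine h0 _ ?_
    have h2 : ((1, y) : G × H) ^ q = 1 := Prod.ext (one_pow q) (hH y)
    have h3 := congrArg (fun z => (θ z).1) h2
    simp only [map_pow, map_one] at h3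
    exact h3
  let ψ : H →* H' := MonoidHom.mk' (fun y => (θ (1, y)).2) fun a b => by
    show (θ (1, a * b)).2 = (θ (1, a)).2 * (θ (1, b)).2
    rw [← Prod.snd_mul, ← map_mul, Prod.mk_mul_mk, one_mul]
  have hinj : Function.Injective ψ := by
    rw [injective_iff_map_eq_one]
    intro y hy
    have e7 : θ (1, y) = 1 := Prod.ext (h1 y) hy
    have e8 := θ.injective (e7.trans (map_one θ).symm)
    exact congrArg Prod.snd e8
  exact ⟨MulEquiv.ofBijective ψ ((Nat.bijective_iff_injective_and_card ψ).2 ⟨hinj, hc⟩)⟩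

/-- Direct factors of coprime exponents can be cancelled. -/
theorem cancel' {p q : ℕ} (hpq : Nat.Coprime p q) {G H H' : Type} [Group G] [Group H] [Group H']
    [Finite H] [Finite H'] (hG : ∀ x : G, x ^ p = 1) (hH : ∀ x : H, x ^ q = 1)
    (hc : Nat.card H = Nat.card H') (θ : H × G ≃* H' × G) : Nonempty (H ≃* H') :=
  cancel hpq hG hH hc ((MulEquiv.prodComm.trans θ).trans MulEquiv.prodComm)

end Pool.Agent.J4H25.PS
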