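import Pool.Agent.J4H25.PS.Cnt
import Pool.Agent.J4H25.PS.Pair
import Pool.Agent.W879.GW.NonIso
import Pool.Agent.W879.GW.Exist
import Pool.Agent.W879.GW.Par

/-!
# Two groups of prime power order with all the structure
-/

set_option autoImplicit false
set_option linter.unusedSectionVars false

namespace Pool.Agent.J4H25.PS

open Module Pool.Agent.TH658.Sos Pool.Agent.W879.GW Pool.Agent.W185.LSQ

/-- Two groups with a family of local isomorphisms which is compatible with an action without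
fixed points. -/
structure Dat (C : Type) [CommGroup C] (p R T : ℕ) where
  /-- the first group -/
  G : Type
  /-- the second group -/
  H : Type
  [gG : Group G]
  [gH : Group H]
  [fG : Fintype G]
  [fH : Fintype H]
  /-- the action on the first group -/
  φ : C →* MulAut G
  /-- the action on the second group -/
  ψ : C →* MulAut H
  /-- the exponent of the order -/
  r : ℕ
  cG : Fintype.card G = p ^ r
  cH : Fintype.card H = p ^ r
  eG : ∀ x : G, x ^ p = 1
  eH : ∀ x : H, x ^ p = 1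
  fpG : FPF φ
  fpH : FPF ψ
  ni : IsEmpty (G ≃* H)
  /-- the space of the parameters -/
  X : Type
  /-- the levels -/
  L : Type
  /-- the restrictions -/
  Y : Type
  [aX : AddCommGroup X]
  [fX : Fintype X]
  [sL : SemilatticeSup L]
  [oL : OrderBot L]
  [aY : AddCommGroup Y]
  [fY : Fintype Y]
  /-- the system -/
  S : Sys X L
  /-- the invisible restrictions -/
  NZ : L → AddSubgroup Y
  hbot : NZ ⊥ = ⊤
  hsup : ∀ W W', NZ W ⊓ NZ W' ≤ NZ (W ⊔ W')
  hT : ∀ W, R < S.size W → T * Nat.card (NZ W) ≤ Fintype.card Y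
  hK : 3 * (R + 4) ≤ S.K
  hX : ∃ m, Fintype.card X = p ^ m
  /-- the local isomorphisms -/
  A : FAct S NZ G H
  hc : A.c = 1
  lvG : ∀ c u, A.lv (φ c u) = A.lv u
  lvH : ∀ c u, A.lv' (ψ c u) = A.lv' u
  eqv : ∀ z M c u, A.b z M (φ c u) = ψ c (A.b z M u)

attribute [instance] Dat.gG Dat.gH Dat.fG Dat.fH Dat.aX Dat.fX Dat.sL Dat.oL Dat.aY Dat.fY

theorem fpf_scH {F A : Type} [Field F] [AddCommGroup A] [Module F A] {g : ℕ}
    {B : Submodule F (Fin g → Dual F A)} {f : A →ₗ[F] A →ₗ[F] (Fin g → F)} {C : Type}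
    [CommGroup C] {p : ℕ} (hp3 : Nat.Coprime 3 p) (χ : C →* Fˣ)
    (hχ : ∀ c, c ≠ 1 → ((χ c : Fˣ) : F) ≠ 1 ∧ ((χ c : Fˣ) : F) * (χ c : Fˣ) ≠ 1)
    (he : ∀ x : GE (bet B f), x ^ p = 1) : FPF (scH B f χ) := by
  refine ⟨fun c hc n hn => scH_fix χ c (hχ c hc).1 (hχ c hc).2 n hn, fun n hn => ?_⟩
  have h1 : orderOf n ∣ 3 := orderOf_dvd_of_pow_eq_one hn
  have h2 : orderOf n ∣ p := orderOf_dvd_of_pow_eq_one (he n)
  exact orderOf_eq_one_iff.1 (Nat.eq_one_of_dvd_coprimes hp3 h1 h2)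

theorem exists_dat {C : Type} [CommGroup C] (p : ℕ) (hp : p.Prime) (hp2 : p ≠ 2)
    (hp3 : Nat.Coprime 3 p) (χ : C →* (ZMod p)ˣ)
    (hχ : ∀ c, c ≠ 1 → ((χ c : (ZMod p)ˣ) : ZMod p) ≠ 1 ∧
      ((χ c : (ZMod p)ˣ) : ZMod p) * (χ c : (ZMod p)ˣ) ≠ 1) (R : ℕ) :
    ∃ D : Dat C p R (p ^ ((R + 1) * (6 * (4 * (3 * (R + 4))) - (R + 1)))),
      R + 1 ≤ D.r ∧ D.r ≤ 192 * (3 * (R + 4)) + 7 := by
  classical
  have : Fact p.Prime := ⟨hp⟩
  obtain ⟨q, halt, hE⟩ := exists_expander (F := ZMod p) (4 * (3 * (R + 4)))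
  have hfr : finrank (ZMod p) (Fin (6 * (4 * (3 * (R + 4)))) → ZMod p) =
      6 * (4 * (3 * (R + 4))) := Module.finrank_fin_fun _
  obtain ⟨φ₀, c₀, h0⟩ := exists_target hE (by omega) (by
    rw [hfr]
    omega)
  let A : Type := Fin (6 * (4 * (3 * (R + 4)))) → ZMod p
  let B : Submodule (ZMod p) (Fin 7 → Dual (ZMod p) A) := LinearMap.ker (tot (qz q))
  let f : A →ₗ[ZMod p] A →ₗ[ZMod p] (Fin 7 → ZMod p) := T (φ₀.smulRight (cz 0 c₀))
  have hfin : Finite (Dual (ZMod p) A) := Module.finite_of_finite (ZMod p)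
  have hfin2 : Finite (Fin 7 → Dual (ZMod p) A) := inferInstance
  have hfinB : Finite B := inferInstance
  have iB : Fintype B := Fintype.ofFinite B
  have iA : Fintype A := inferInstance
  have hcB : Fintype.card B = p ^ finrank (ZMod p) B := by
    rw [← Nat.card_eq_fintype_card, Module.natCard_eq_pow_finrank (K := ZMod p), Nat.card_zmod]
  have hcA : Fintype.card A = p ^ (6 * (4 * (3 * (R + 4)))) := by
    rw [← Nat.card_eq_fintype_card, Module.natCard_eq_pow_finrank (K := ZMod p), Nat.card_zmod,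
      hfr]
  have hcard : ∀ f' : A →ₗ[ZMod p] A →ₗ[ZMod p] (Fin 7 → ZMod p),
      Fintype.card (GE (bet B f')) = p ^ (6 * (4 * (3 * (R + 4))) + finrank (ZMod p) B + 7) := by
    intro f'
    rw [card_GE, Fintype.card_prod, hcB, hcA, Fintype.card_fun, ZMod.card, Fintype.card_fin,
      ← pow_add, ← pow_add]
  have hfrB : finrank (ZMod p) B ≤ 7 * (6 * (4 * (3 * (R + 4)))) := by
    refine (Submodule.finrank_le _).trans (le_of_eq ?_)
    rw [Module.finrank_pi_fintype]
    simp only [Subspace.dual_finrank_eq, Finset.sum_const, Finset.card_univ, Fintype.card_fin,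
      smul_eq_mul]
    exact congrArg (fun x => 7 * x) hfr
  have hiso : IsEmpty (GE (bet B f) ≃* GE (bet B 0)) :=
    not_iso hp2 (alt_qz halt) (expands_qz hE) (by omega) (by
      rw [hfr]
      omega) rfl φ₀ (cz 0 c₀) (by rwa [tot_qz]) rfl
  have hbf : ∀ v, (bet B f).fn v v = 0 := by
    intro v
    rw [bet_apply, sub_self, add_zero]
    funext i
    show T (φ₀.smulRight (cz 0 c₀)) v.1 v.1 i = 0
    rw [T_apply, sub_self]
  have hb0 : ∀ v, (bet B (0 : A →ₗ[ZMod p] A →ₗ[ZMod p] (Fin 7 → ZMod p))).fn v v = 0 := by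
    intro v
    rw [bet_apply, sub_self, add_zero]
    rfl
  have ef : ∀ x : GE (bet B f), x ^ p = 1 := fun x => pow_char (F := ZMod p) hbf x
  have e0 : ∀ x : GE (bet B (0 : A →ₗ[ZMod p] A →ₗ[ZMod p] (Fin 7 → ZMod p))), x ^ p = 1 :=
    fun x => pow_char (F := ZMod p) hb0 x
  have hfinK : Finite (LinearMap.ker (tot q)) := inferInstance
  have hfinM : Finite (A →ₗ[ZMod p] LinearMap.ker (tot q)) := Module.finite_of_finite (ZMod p)
  have iX : Fintype (A →ₗ[ZMod p] LinearMap.ker (tot q)) := Fintype.ofFinite _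
  have hfinY : Finite (A →ₗ[ZMod p] Dual (ZMod p) A) := Module.finite_of_finite (ZMod p)
  have iY : Fintype (Sy (ZMod p) A) := Fintype.ofFinite _
  refine ⟨{
    G := GE (bet B f)
    H := GE (bet B 0)
    φ := scH B f χ
    ψ := scH B 0 χ
    r := 6 * (4 * (3 * (R + 4))) + finrank (ZMod p) B + 7
    cG := hcard f
    cH := hcard 0
    eG := ef
    eH := e0
    fpG := fpf_scH hp3 χ hχ ef
    fpH := fpf_scH hp3 χ hχ e0
    ni := hiso
    X := A →ₗ[ZMod p] LinearMap.ker (tot q)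
    L := Submodule (ZMod p) A
    Y := Sy (ZMod p) A
    S := grSys halt hE (LinearMap.ker (tot q)) rfl (T (φ₀.smulRight c₀)) φ₀ c₀ rfl
    NZ := NS (ZMod p) A
    hbot := NS_bot
    hsup := NS_sup
    hT := fun W hW => by
      have h1 := NS_card W hfr hW
      rwa [Nat.card_zmod, Nat.card_eq_fintype_card (α := Sy (ZMod p) A)] at h1
    hK := le_rfl
    hX := ⟨finrank (ZMod p) (A →ₗ[ZMod p] LinearMap.ker (tot q)), by
      rw [← Nat.card_eq_fintype_card, Module.natCard_eq_pow_finrank (K := ZMod p),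
        Nat.card_zmod]⟩
    A := base halt (by omega) hE φ₀ c₀
    hc := rfl
    lvG := fun c u => span_scH χ c u
    lvH := fun c u => span_scH χ c u
    eqv := fun z M c u => sh_scH χ c (em2 z.1 M) u }, ?_, ?_⟩
  · show R + 1 ≤ 6 * (4 * (3 * (R + 4))) + finrank (ZMod p) B + 7
    omega
  · show 6 * (4 * (3 * (R + 4))) + finrank (ZMod p) B + 7 ≤ 192 * (3 * (R + 4)) + 7
    omega

end Pool.Agent.J4H25.PS
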