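import Pool.Agent.TH658.Sos.Defs

/-!
# The number of monomials in algebraic proofs
-/

set_option autoImplicit false

namespace Pool.Agent.J4H25.PS

open MvPolynomial Pool.Agent.TH658.Sos

/-- Two polynomials have the same values at all points with coordinates `0` and `1`. -/
def BoolEq {K σ : Type} [Field K] (p q : MvPolynomial σ K) : Prop :=
  ∀ a : σ → K, (∀ i, a i = 0 ∨ a i = 1) → eval a p = eval a q

/-- `PCIn P M p`: the polynomial `p` has a derivation in the polynomial calculus from the
polynomials in `P` such that all monomials of all polynomials in the derivation belong to the set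
`M`. The rules are linear combinations and the multiplication by a variable; in each step
polynomials can be replaced by polynomials with the same values at all `0`-`1`-points. -/
inductive PCIn {K σ : Type} [Field K] (P : MvPolynomial σ K → Prop) (M : Finset (σ →₀ ℕ)) :
    MvPolynomial σ K → Prop
  | ax (p q : MvPolynomial σ K) (h : P p) (hq : BoolEq p q) (hM : q.support ⊆ M) : PCIn P M q
  | lin (c d : K) (p q r : MvPolynomial σ K) (hp : PCIn P M p) (hq : PCIn P M q)
      (hr : BoolEq (C c * p + C d * q) r) (hM : r.support ⊆ M) : PCIn P M r
  | mul (i : σ) (p q : MvPolynomial σ K) (hp : PCIn P M p) (hq : BoolEq (X i * p) q)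
      (hM : q.support ⊆ M) : PCIn P M q

/-- There is a refutation of the isomorphism of `G` and `H` in the polynomial calculus over `K`
whose polynomials have monomials only in `M`. -/
def PCRefIn (K : Type) [Field K] {V V' : Type} [Fintype V] [Fintype V'] (G : SimpleGraph V)
    (H : SimpleGraph V') (M : Finset (V × V' →₀ ℕ)) : Prop :=
  PCIn (IsoAxiom K G H) M 1

/-- There is a refutation of the isomorphism of `G` and `H` in the Positivstellensatz calculus
with monomials in `M`: polynomials `q i` with monomials in `M` and a derivation in the polynomial
calculus over the reals with monomials in `M` of a polynomial which is equal to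
`1 + ∑ q i ^ 2` at all `0`-`1`-points. -/
def PosRefIn {V V' : Type} [Fintype V] [Fintype V'] (G : SimpleGraph V) (H : SimpleGraph V')
    (M : Finset (V × V' →₀ ℕ)) : Prop :=
  ∃ (m : ℕ) (q : Fin m → MvPolynomial (V × V') ℝ) (r : MvPolynomial (V × V') ℝ),
    (∀ i, (q i).support ⊆ M) ∧ BoolEq (1 + ∑ i, q i ^ 2) r ∧ PCIn (IsoAxiom ℝ G H) M r

end Pool.Agent.J4H25.PS
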