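import Pool.Agent.J4H25.PS.Core
import Pool.Agent.W185.LSQ.Latin

/-!
# Families of local isomorphisms between groups
-/

set_option autoImplicit false
set_option linter.unusedSectionVars false

namespace Pool.Agent.J4H25.PS

open Finset MvPolynomial Pool.Agent.TH658.Sos Pool.Agent.W185.LSQ

/-- Bijections between two groups which are locally isomorphisms for the solutions of a system,
with an additional parameter in `Y` that is determined on the level of an element by the image of
this element. -/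
structure FAct {X L : Type} [AddCommGroup X] [SemilatticeSup L] [OrderBot L] (S : Sys X L)
    {Y : Type} [AddCommGroup Y] (NZ : L → AddSubgroup Y) (G H : Type) [Group G] [Group H] where
  /-- the bijections -/
  b : Y → X → G ≃ H
  /-- the level of an element -/
  lv : G → L
  /-- the level of an image -/
  lv' : H → L
  /-- bound of the size -/
  c : ℕ
  inv : ∀ z M n u, n ∈ S.N (lv u) → b z (M + n) u = b z M u
  lev : ∀ z M u, lv' (b z M u) = lv u
  size : ∀ u, S.size (lv u) ≤ c
  mul : ∀ z u v, ∀ M ∈ S.Sol (lv u ⊔ lv v), b z M (u * v) = b z M u * b z M v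
  det : ∀ z z' M M' u, b z M u = b z' M' u → z - z' ∈ NZ (lv u)

namespace FAct

variable {X L : Type} [AddCommGroup X] [SemilatticeSup L] [OrderBot L] {S : Sys X L}
  {Y : Type} [AddCommGroup Y] {NZ : L → AddSubgroup Y} {G H : Type} [Group G] [Group H]

/-- The local isomorphisms between the graphs. -/
def toAct (A : FAct S NZ G H) (z : Y) :
    Act S (latinGraph fun a b : G => a * b) (latinGraph fun a b : H => a * b) where
  b M := Equiv.prodCongr (A.b z M) (A.b z M)
  lv p := A.lv p.1 ⊔ A.lv p.2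
  lv' p := A.lv' p.1 ⊔ A.lv' p.2
  c := 2 * A.c
  inv M n u hn := by
    refine Prod.ext ?_ ?_
    · exact A.inv z M n u.1 (S.N_anti _ _ le_sup_left hn)
    · exact A.inv z M n u.2 (S.N_anti _ _ le_sup_right hn)
  lev M u := by
    show A.lv' (A.b z M u.1) ⊔ A.lv' (A.b z M u.2) = A.lv u.1 ⊔ A.lv u.2
    rw [A.lev, A.lev]
  size u := by
    have h1 := S.size_sup (A.lv u.1) (A.lv u.2)
    have h2 := A.size u.1
    have h3 := A.size u.2
    omega
  iso u u' M hM := by
    have hu := A.mul z u.1 u.2 M (S.Sol_anti _ _ le_sup_left hM)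
    have hu' := A.mul z u'.1 u'.2 M (S.Sol_anti _ _ le_sup_right hM)
    show (u ≠ u' ∧ (u.1 = u'.1 ∨ u.2 = u'.2 ∨ u.1 * u.2 = u'.1 * u'.2)) ↔
      ((Equiv.prodCongr (A.b z M) (A.b z M)) u ≠ (Equiv.prodCongr (A.b z M) (A.b z M)) u' ∧
        (A.b z M u.1 = A.b z M u'.1 ∨ A.b z M u.2 = A.b z M u'.2 ∨
        A.b z M u.1 * A.b z M u.2 = A.b z M u'.1 * A.b z M u'.2))
    rw [← hu, ← hu', (Equiv.injective _).ne_iff, (Equiv.injective _).eq_iff,
      (Equiv.injective _).eq_iff, (Equiv.injective _).eq_iff]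

/-- The level of a monomial. -/
def lm (A : FAct S NZ G H) (m : (G × G) × (H × H) →₀ ℕ) : L :=
  m.support.sup fun p => A.lv p.1.1 ⊔ A.lv p.1.2

theorem toAct_lm (A : FAct S NZ G H) (z : Y) (m : (G × G) × (H × H) →₀ ℕ) :
    (A.toAct z).lm m = A.lm m := rfl

theorem NZ_sup {ι : Type} (hbot : NZ ⊥ = ⊤) (hsup : ∀ W W', NZ W ⊓ NZ W' ≤ NZ (W ⊔ W'))
    (s : Finset ι) (f : ι → L) (y : Y) (h : ∀ i ∈ s, y ∈ NZ (f i)) : y ∈ NZ (s.sup f) := by
  classical
  induction s using Finset.induction_on with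
  | empty => rw [Finset.sup_empty, hbot]; trivial
  | insert i s hi ih =>
    rw [Finset.sup_insert]
    exact hsup _ _ ⟨h i (Finset.mem_insert_self i s),
      ih fun j hj => h j (Finset.mem_insert_of_mem hj)⟩

/-- The counting argument. -/
theorem count (A : FAct S NZ G H) [Fintype Y] (hbot : NZ ⊥ = ⊤)
    (hsup : ∀ W W', NZ W ⊓ NZ W' ≤ NZ (W ⊔ W')) {R T : ℕ}
    (hT : ∀ W, R < S.size W → T * Nat.card (NZ W) ≤ Fintype.card Y)
    {M : Finset ((G × G) × (H × H) →₀ ℕ)} (h : ∀ z, ∃ m ∈ M, ¬ Sm (A.toAct z) R m) :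
    T ≤ M.card := by
  classical
  choose f hf hfs using h
  have hfib : ∀ m ∈ M, T * (Finset.univ.filter fun z => f z = m).card ≤ Fintype.card Y := by
    intro m _
    by_cases hne : (Finset.univ.filter fun z => f z = m).Nonempty
    · obtain ⟨z₀, hz₀⟩ := hne
      have hz₀' : f z₀ = m := (Finset.mem_filter.1 hz₀).2
      have hsz : R < S.size (A.lm m) := by
        have h1 := hfs z₀
        unfold Sm at h1
        push Not at h1
        rw [hz₀'] at h1
        exact h1.2
      have hdet : ∀ z, f z = m → z - z₀ ∈ NZ (A.lm m) := by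
        intro z hz
        have h1 := hfs z
        have h2 := hfs z₀
        unfold Sm at h1 h2
        push Not at h1 h2
        rw [hz] at h1
        rw [hz₀'] at h2
        obtain ⟨⟨x, hx⟩, -⟩ := h1
        obtain ⟨⟨x₀, hx₀⟩, -⟩ := h2
        refine NZ_sup hbot hsup _ _ _ fun p hp => ?_
        have e1 := hx p hp
        have e2 := hx₀ p hp
        have e3 : (A.b z x p.1.1, A.b z x p.1.2) = (A.b z₀ x₀ p.1.1, A.b z₀ x₀ p.1.2) :=
          e1.trans e2.symm
        exact hsup _ _ ⟨A.det z z₀ x x₀ _ (congrArg Prod.fst e3),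
          A.det z z₀ x x₀ _ (congrArg Prod.snd e3)⟩
      refine (Nat.mul_le_mul_left T ?_).trans (hT _ hsz)
      rw [← Fintype.card_subtype, ← Nat.card_eq_fintype_card]
      refine Nat.card_le_card_of_injective
        (fun z : {z // f z = m} => (⟨z.1 - z₀, hdet z.1 z.2⟩ : NZ (A.lm m))) ?_
      intro z z' hzz
      have h1 : z.1 - z₀ = z'.1 - z₀ := congrArg Subtype.val hzz
      exact Subtype.ext (sub_left_injective h1)
    · rw [Finset.not_nonempty_iff_eq_empty.1 hne, Finset.card_empty, mul_zero]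
      exact Nat.zero_le _
  have h1 : Fintype.card Y = ∑ m ∈ M, (Finset.univ.filter fun z => f z = m).card := by
    rw [← Finset.card_univ]
    exact Finset.card_eq_sum_card_fiberwise fun z _ => hf z
  have h2 : T * Fintype.card Y ≤ M.card * Fintype.card Y := by
    conv_lhs => rw [h1, Finset.mul_sum]
    refine (Finset.sum_le_sum hfib).trans ?_
    rw [Finset.sum_const, smul_eq_mul]
  exact Nat.le_of_mul_le_mul_right h2 Fintype.card_pos

/-- The number of monomials in the polynomial calculus. -/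
theorem pc_bound (A : FAct S NZ G H) [Fintype X] [Fintype Y] [Fintype G] [Fintype H]
    (hbot : NZ ⊥ = ⊤) (hsup : ∀ W W', NZ W ⊓ NZ W' ≤ NZ (W ⊔ W')) {R T : ℕ}
    (hT : ∀ W, R < S.size W → T * Nat.card (NZ W) ≤ Fintype.card Y)
    (hK : 3 * (R + 2 * A.c) ≤ S.K) (F : Type) [Field F] (hX : (Fintype.card X : F) ≠ 0)
    {M : Finset ((G × G) × (H × H) →₀ ℕ)}
    (h : PCRefIn F (latinGraph fun a b : G => a * b) (latinGraph fun a b : H => a * b) M) :
    T ≤ M.card := by
  refine A.count hbot hsup hT fun z => ?_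
  by_contra hcon
  push Not at hcon
  exact not_pcRefIn (A.toAct z) F hX hK (fun m hm => hcon m hm) h

/-- The number of monomials in the Positivstellensatz calculus. -/
theorem pos_bound (A : FAct S NZ G H) [Fintype X] [Fintype Y] [Fintype G] [Fintype H]
    (hbot : NZ ⊥ = ⊤) (hsup : ∀ W W', NZ W ⊓ NZ W' ≤ NZ (W ⊔ W')) {R T : ℕ}
    (hT : ∀ W, R < S.size W → T * Nat.card (NZ W) ≤ Fintype.card Y)
    (hK : 3 * (R + 2 * A.c) ≤ S.K) {M : Finset ((G × G) × (H × H) →₀ ℕ)}
    (h : PosRefIn (latinGraph fun a b : G => a * b) (latinGraph fun a b : H => a * b) M) :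
    T ≤ M.card := by
  refine A.count hbot hsup hT fun z => ?_
  by_contra hcon
  push Not at hcon
  exact not_posRefIn (A.toAct z) hK (fun m hm => hcon m hm) h

/-- The inverse family. -/
def symm (A : FAct S NZ G H) : FAct S NZ H G where
  b z M := (A.b z M).symm
  lv := A.lv'
  lv' := A.lv
  c := A.c
  inv z M n v hn := by
    have h1 : A.lv ((A.b z M).symm v) = A.lv' v := by
      rw [← A.lev z M, Equiv.apply_symm_apply]
    rw [Equiv.symm_apply_eq, A.inv z M n _ (by rw [h1]; exact hn), Equiv.apply_symm_apply]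
  lev z M v := by
    rw [← A.lev z M, Equiv.apply_symm_apply]
  size v := by
    have h1 : A.lv ((A.b 0 0).symm v) = A.lv' v := by
      rw [← A.lev 0 0, Equiv.apply_symm_apply]
    rw [← h1]
    exact A.size _
  mul z u v M hM := by
    have h1 : ∀ w, A.lv ((A.b z M).symm w) = A.lv' w := fun w => by
      rw [← A.lev z M, Equiv.apply_symm_apply]
    rw [Equiv.symm_apply_eq, A.mul z _ _ M (by rw [h1, h1]; exact hM),
      Equiv.apply_symm_apply, Equiv.apply_symm_apply]
  det z z' M M' v h := by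
    have h1 : A.lv ((A.b z M).symm v) = A.lv' v := by
      rw [← A.lev z M, Equiv.apply_symm_apply]
    rw [← h1]
    refine A.det z z' M M' _ ?_
    rw [Equiv.apply_symm_apply, h, Equiv.apply_symm_apply]

/-- The identity. -/
def id (hbot : NZ ⊥ = ⊤) (S : Sys X L) (G : Type) [Group G] : FAct S NZ G G where
  b _ _ := Equiv.refl G
  lv _ := ⊥
  lv' _ := ⊥
  c := 0
  inv _ _ _ _ _ := rfl
  lev _ _ _ := rfl
  size _ := by rw [S.size_bot]
  mul _ _ _ _ _ := rfl
  det z z' _ _ _ _ := by rw [hbot]; trivial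

variable {G' H' : Type} [Group G'] [Group H']

/-- The product of two families. -/
def prod (hsup : ∀ W W', NZ W ⊓ NZ W' ≤ NZ (W ⊔ W')) (A : FAct S NZ G H)
    (A' : FAct S NZ G' H') : FAct S NZ (G × G') (H × H') where
  b z M := Equiv.prodCongr (A.b z M) (A'.b z M)
  lv u := A.lv u.1 ⊔ A'.lv u.2
  lv' u := A.lv' u.1 ⊔ A'.lv' u.2
  c := A.c + A'.c
  inv z M n u hn := Prod.ext (A.inv z M n u.1 (S.N_anti _ _ le_sup_left hn))
    (A'.inv z M n u.2 (S.N_anti _ _ le_sup_right hn))
  lev z M u := by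
    show A.lv' (A.b z M u.1) ⊔ A'.lv' (A'.b z M u.2) = _
    rw [A.lev, A'.lev]
  size u := by
    have h1 := S.size_sup (A.lv u.1) (A'.lv u.2)
    have h2 := A.size u.1
    have h3 := A'.size u.2
    omega
  mul z u v M hM := Prod.ext
    (A.mul z u.1 v.1 M (S.Sol_anti _ _ (sup_le_sup le_sup_left le_sup_left) hM))
    (A'.mul z u.2 v.2 M (S.Sol_anti _ _ (sup_le_sup le_sup_right le_sup_right) hM))
  det z z' M M' u h := hsup _ _ ⟨A.det z z' M M' u.1 (congrArg Prod.fst h),
    A'.det z z' M M' u.2 (congrArg Prod.snd h)⟩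

/-- Composition with an isomorphism. -/
def comp (A : FAct S NZ G H) (e : H ≃* H') : FAct S NZ G H' where
  b z M := (A.b z M).trans e.toEquiv
  lv := A.lv
  lv' u := A.lv' (e.symm u)
  c := A.c
  inv z M n u hn := congrArg e (A.inv z M n u hn)
  lev z M u := by
    show A.lv' (e.symm (e (A.b z M u))) = A.lv u
    rw [MulEquiv.symm_apply_apply, A.lev]
  size := A.size
  mul z u v M hM := by
    show e (A.b z M (u * v)) = e (A.b z M u) * e (A.b z M v)
    rw [A.mul z u v M hM, map_mul]
  det z z' M M' u h := A.det z z' M M' u (e.injective h)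

/-- The semidirect product with a group that acts on both sides. -/
def semi (A : FAct S NZ G H) {C : Type} [Group C] (φ : C →* MulAut G) (ψ : C →* MulAut H)
    (h1 : ∀ c u, A.lv (φ c u) = A.lv u) (h2 : ∀ z M c u, A.b z M (φ c u) = ψ c (A.b z M u)) :
    FAct S NZ (G ⋊[φ] C) (H ⋊[ψ] C) where
  b z M := ⟨fun u => ⟨A.b z M u.left, u.right⟩, fun v => ⟨(A.b z M).symm v.left, v.right⟩,
    fun u => by simp, fun v => by simp⟩
  lv u := A.lv u.left
  lv' u := A.lv' u.left
  c := A.c
  inv z M n u hn := by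
    refine SemidirectProduct.ext ?_ rfl
    exact A.inv z M n u.left hn
  lev z M u := A.lev z M u.left
  size u := A.size u.left
  mul z u v M hM := by
    refine SemidirectProduct.ext ?_ rfl
    show A.b z M (u.left * φ u.right v.left) = A.b z M u.left * ψ u.right (A.b z M v.left)
    rw [A.mul z _ _ M (by rw [h1]; exact hM), h2]
  det z z' M M' u h := A.det z z' M M' u.left (congrArg SemidirectProduct.left h)

end FAct

end Pool.Agent.J4H25.PS
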