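import Pool.Agent.J4H25.PS.Dat

/-!
# The number of monomials in algebraic proofs of non-isomorphism of groups
-/

set_option autoImplicit false
set_option linter.unusedSectionVars false

namespace Pool.Agent.J4H25.PS

open Module Pool.Agent.TH658.Sos Pool.Agent.W879.GW Pool.Agent.W185.LSQ

section

variable {C G G' : Type} [CommGroup C] [Group G] [Group G']

/-- The action on a product. -/
def pAut (φ : C →* MulAut G) (φ' : C →* MulAut G') : C →* MulAut (G × G') where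
  toFun c := MulEquiv.prodCongr (φ c) (φ' c)
  map_one' := by
    refine MulEquiv.ext fun u => ?_
    show (φ 1 u.1, φ' 1 u.2) = u
    rw [map_one, map_one]
    rfl
  map_mul' c d := by
    refine MulEquiv.ext fun u => ?_
    show (φ (c * d) u.1, φ' (c * d) u.2) = (φ c (φ d u.1), φ' c (φ' d u.2))
    rw [map_mul, map_mul]
    rfl

theorem pAut_apply (φ : C →* MulAut G) (φ' : C →* MulAut G') (c : C) (u : G × G') :
    pAut φ φ' c u = (φ c u.1, φ' c u.2) := rfl

theorem fpf_pAut {φ : C →* MulAut G} {φ' : C →* MulAut G'} (h : FPF φ) (h' : FPF φ') :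
    FPF (pAut φ φ') := by
  refine ⟨fun c hc n hn => ?_, fun n hn => ?_⟩
  · exact Prod.ext (h.fix c hc _ (congrArg Prod.fst hn)) (h'.fix c hc _ (congrArg Prod.snd hn))
  · exact Prod.ext (h.three _ (congrArg Prod.fst hn)) (h'.three _ (congrArg Prod.snd hn))

end

section

variable {C : Type} [CommGroup C] {p p' R T R' T' : ℕ} (D : Dat C p R T) (D' : Dat C p' R' T')

/-- The first group. -/
abbrev GP : Type :=
  ((D.G × D'.G) ⋊[pAut D.φ D'.φ] C) × ((D.H × D'.H) ⋊[pAut D.ψ D'.ψ] C)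

/-- The second group. -/
abbrev GQ : Type :=
  ((D.G × D'.H) ⋊[pAut D.φ D'.ψ] C) × ((D.H × D'.G) ⋊[pAut D.ψ D'.φ] C)

theorem symm_eqv (z : D.Y) (M : D.X) (c : C) (v : D.H) :
    (D.A.b z M).symm (D.ψ c v) = D.φ c ((D.A.b z M).symm v) := by
  rw [Equiv.symm_apply_eq, D.eqv, Equiv.apply_symm_apply]

/-- The local isomorphisms on the first components. -/
def fam1 : FAct D.S D.NZ (GP D D') (GQ D D') :=
  (FAct.prod D.hsup
    (FAct.semi (FAct.prod D.hsup D.A (FAct.id D.hbot D.S D'.G)) (pAut D.φ D'.φ)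
      (pAut D.ψ D'.φ)
      (fun c u => by
        show D.A.lv (D.φ c u.1) ⊔ ⊥ = D.A.lv u.1 ⊔ ⊥
        rw [D.lvG])
      (fun z M c u => Prod.ext (D.eqv z M c u.1) rfl))
    (FAct.semi (FAct.prod D.hsup D.A.symm (FAct.id D.hbot D.S D'.H)) (pAut D.ψ D'.ψ)
      (pAut D.φ D'.ψ)
      (fun c u => by
        show D.A.lv' (D.ψ c u.1) ⊔ ⊥ = D.A.lv' u.1 ⊔ ⊥
        rw [D.lvH])
      (fun z M c u => Prod.ext (symm_eqv D z M c u.1) rfl))).comp MulEquiv.prodComm

/-- The local isomorphisms on the second components. -/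
def fam2 : FAct D'.S D'.NZ (GP D D') (GQ D D') :=
  FAct.prod D'.hsup
    (FAct.semi (FAct.prod D'.hsup (FAct.id D'.hbot D'.S D.G) D'.A) (pAut D.φ D'.φ)
      (pAut D.φ D'.ψ)
      (fun c u => by
        show ⊥ ⊔ D'.A.lv (D'.φ c u.2) = ⊥ ⊔ D'.A.lv u.2
        rw [D'.lvG])
      (fun z M c u => Prod.ext rfl (D'.eqv z M c u.2)))
    (FAct.semi (FAct.prod D'.hsup (FAct.id D'.hbot D'.S D.H) D'.A.symm) (pAut D.ψ D'.ψ)
      (pAut D.ψ D'.φ)
      (fun c u => by
        show ⊥ ⊔ D'.A.lv' (D'.ψ c u.2) = ⊥ ⊔ D'.A.lv' u.2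
        rw [D'.lvH])
      (fun z M c u => Prod.ext rfl (symm_eqv D' z M c u.2)))

theorem fam1_c : (fam1 D D').c = 2 := by
  show (D.A.c + 0) + (D.A.c + 0) = 2
  rw [D.hc]

theorem fam2_c : (fam2 D D').c = 2 := by
  show (0 + D'.A.c) + (0 + D'.A.c) = 2
  rw [D'.hc]

/-- The two groups are not isomorphic. -/
theorem not_iso_pair (hC : ∀ c : C, c ^ 3 = 1) {c₀ : C} (hc₀ : c₀ ≠ 1) (hpp : Nat.Coprime p p')
    (hp : 1 < p) (hp' : 1 < p') (hr : 1 ≤ D.r) : IsEmpty (GP D D' ≃* GQ D D') := by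
  refine ⟨fun θ => ?_⟩
  have hm : 1 < p ^ D.r * p' ^ D'.r := by
    have h1 : 1 < p ^ D.r := Nat.one_lt_pow (by omega) hp
    have h2 : 1 ≤ p' ^ D'.r := Nat.one_le_pow _ _ (by omega)
    calc 1 < p ^ D.r * 1 := by rwa [mul_one]
      _ ≤ _ := Nat.mul_le_mul_left _ h2
  have cG : Nat.card D.G = p ^ D.r := by rw [Nat.card_eq_fintype_card, D.cG]
  have cH : Nat.card D.H = p ^ D.r := by rw [Nat.card_eq_fintype_card, D.cH]
  have cG' : Nat.card D'.G = p' ^ D'.r := by rw [Nat.card_eq_fintype_card, D'.cG]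
  have cH' : Nat.card D'.H = p' ^ D'.r := by rw [Nat.card_eq_fintype_card, D'.cH]
  rcases pair_iso hC hc₀ (fpf_pAut D.fpG D'.fpG) (fpf_pAut D.fpG D'.fpH)
    (fpf_pAut D.fpH D'.fpG) hm (by rw [Nat.card_prod, cG, cG'])
    (by rw [Nat.card_prod, cG, cH']) (by rw [Nat.card_prod, cH, cG']) θ with h | h
  · obtain ⟨η⟩ := h
    obtain ⟨ζ⟩ := cancel hpp D.eG D'.eG (by rw [cG', cH']) η
    exact D'.ni.false ζ
  · obtain ⟨η⟩ := h
    obtain ⟨ζ⟩ := cancel' hpp.symm D'.eG D.eG (by rw [cG, cH]) η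
    exact D.ni.false ζ

variable [Fintype C]

instance semiFintype {N : Type} [Group N] [Fintype N] (φ : C →* MulAut N) :
    Fintype (N ⋊[φ] C) := Fintype.ofEquiv (N × C) SemidirectProduct.equivProd.symm

theorem card_semi {N : Type} [Group N] [Fintype N] (φ : C →* MulAut N) :
    Fintype.card (N ⋊[φ] C) = Fintype.card N * Fintype.card C := by
  rw [← Fintype.card_prod]
  exact Fintype.card_congr SemidirectProduct.equivProd

theorem card_GP : Fintype.card (GP D D') =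
    (p ^ D.r * p' ^ D'.r * Fintype.card C) * (p ^ D.r * p' ^ D'.r * Fintype.card C) := by
  rw [Fintype.card_prod, card_semi, card_semi, Fintype.card_prod, Fintype.card_prod, D.cG, D.cH,
    D'.cG, D'.cH]

theorem card_GQ : Fintype.card (GQ D D') =
    (p ^ D.r * p' ^ D'.r * Fintype.card C) * (p ^ D.r * p' ^ D'.r * Fintype.card C) := by
  rw [Fintype.card_prod, card_semi, card_semi, Fintype.card_prod, Fintype.card_prod, D.cG, D.cH,
    D'.cG, D'.cH]

/-- The number of monomials over all fields. -/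
theorem pc_pair (hpp : Nat.Coprime p p') (K : Type) [Field K]
    {M : Finset ((GP D D' × GP D D') × (GQ D D' × GQ D D') →₀ ℕ)}
    (h : PCRefIn K (latinGraph fun a b : GP D D' => a * b)
      (latinGraph fun a b : GQ D D' => a * b) M) : min T T' ≤ M.card := by
  by_cases hp : (p : K) = 0
  · have hp' : (p' : K) ≠ 0 := by
      intro hp'
      obtain ⟨k, hk⟩ := CharP.exists K
      have h1 : k ∣ p := (CharP.cast_eq_zero_iff K k p).1 hp
      have h2 : k ∣ p' := (CharP.cast_eq_zero_iff K k p').1 hp'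
      have h3 : k = 1 := Nat.eq_one_of_dvd_coprimes hpp h1 h2
      subst h3
      exact CharP.false_of_nontrivial_of_char_one (R := K)
    refine (min_le_right _ _).trans ?_
    refine (fam2 D D').pc_bound D'.hbot D'.hsup D'.hT ?_ K ?_ h
    · rw [fam2_c]
      exact D'.hK
    · obtain ⟨m, hm⟩ := D'.hX
      rw [hm, Nat.cast_pow]
      exact pow_ne_zero _ hp'
  · refine (min_le_left _ _).trans ?_
    refine (fam1 D D').pc_bound D.hbot D.hsup D.hT ?_ K ?_ h
    · rw [fam1_c]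
      exact D.hK
    · obtain ⟨m, hm⟩ := D.hX
      rw [hm, Nat.cast_pow]
      exact pow_ne_zero _ hp

theorem pos_pair {M : Finset ((GP D D' × GP D D') × (GQ D D' × GQ D D') →₀ ℕ)}
    (h : PosRefIn (latinGraph fun a b : GP D D' => a * b)
      (latinGraph fun a b : GQ D D' => a * b) M) : T ≤ M.card := by
  refine (fam1 D D').pos_bound D.hbot D.hsup D.hT ?_ h
  rw [fam1_c]
  exact D.hK

end

/-- The group of order three. -/
abbrev C3 : Type := Multiplicative (ZMod 3)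

/-- The action on the field with seven elements. -/
def chi7 : C3 →* (ZMod 7)ˣ where
  toFun c := (⟨2, 4, by decide, by decide⟩ : (ZMod 7)ˣ) ^ (Multiplicative.toAdd c).val
  map_one' := by decide
  map_mul' := by decide

/-- The action on the field with thirteen elements. -/
def chi13 : C3 →* (ZMod 13)ˣ where
  toFun c := (⟨3, 9, by decide, by decide⟩ : (ZMod 13)ˣ) ^ (Multiplicative.toAdd c).val
  map_one' := by decide
  map_mul' := by decide

theorem chi7_fix : ∀ c : C3, c ≠ 1 → ((chi7 c : (ZMod 7)ˣ) : ZMod 7) ≠ 1 ∧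
    ((chi7 c : (ZMod 7)ˣ) : ZMod 7) * (chi7 c : (ZMod 7)ˣ) ≠ 1 := by decide

theorem chi13_fix : ∀ c : C3, c ≠ 1 → ((chi13 c : (ZMod 13)ˣ) : ZMod 13) ≠ 1 ∧
    ((chi13 c : (ZMod 13)ˣ) : ZMod 13) * (chi13 c : (ZMod 13)ˣ) ≠ 1 := by decide

theorem arith0 (x y r r' : ℕ) (hr : r ≤ x) (hr' : r' ≤ x) (hy : 2 * x ≤ 3 * y) :
    (7 ^ r * 13 ^ r' * 3) * (7 ^ r * 13 ^ r' * 3) ≤ 7 ^ (7 * y + 2) := by
  have h1 : 7 ^ r ≤ 7 ^ x := Nat.pow_le_pow_right (by norm_num) hr
  have h2 : 13 ^ r' ≤ 13 ^ x := Nat.pow_le_pow_right (by norm_num) hr'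
  have h3 : 7 ^ r * 13 ^ r' * 3 ≤ 91 ^ x * 3 := by
    have e2 : (91 : ℕ) ^ x = 7 ^ x * 13 ^ x := by
      rw [← Nat.mul_pow]
    rw [e2]
    exact Nat.mul_le_mul_right 3 (Nat.mul_le_mul h1 h2)
  have h91 : (91 : ℕ) ^ 3 ≤ 7 ^ 7 := by norm_num
  calc (7 ^ r * 13 ^ r' * 3) * (7 ^ r * 13 ^ r' * 3) ≤ (91 ^ x * 3) * (91 ^ x * 3) :=
        Nat.mul_le_mul h3 h3
    _ = 91 ^ (2 * x) * 9 := by
        rw [two_mul, pow_add 91]
        ring
    _ ≤ 91 ^ (3 * y) * 7 ^ 2 := by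
        refine Nat.mul_le_mul (Nat.pow_le_pow_right (by norm_num) hy) (by norm_num)
    _ ≤ 7 ^ (7 * y) * 7 ^ 2 := by
        refine Nat.mul_le_mul_right _ ?_
        rw [pow_mul, pow_mul 7]
        exact Nat.pow_le_pow_left h91 _
    _ = 7 ^ (7 * y + 2) := (pow_add _ _ _).symm

theorem arith (d r r' : ℕ) (hd : 1 ≤ d) (hr : r ≤ 192 * (3 * (40 * d - 1 + 4)) + 7)
    (hr' : r' ≤ 192 * (3 * (40 * d - 1 + 4)) + 7) :
    (7 ^ r * 13 ^ r' * 3) * (7 ^ r * 13 ^ r' * 3) ≤ 7 ^ (107520 * d + 8101) := by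
  have h := arith0 (23040 * d + 1735) (15360 * d + 1157) r r' (by omega) (by omega) (by omega)
  have e : 7 * (15360 * d + 1157) + 2 = 107520 * d + 8101 := by omega
  rwa [e] at h

theorem lower (d : ℕ) (hd : 1 ≤ d) :
    ∃ (G H : Type) (_ : Group G) (_ : Group H) (_ : Fintype G) (_ : Fintype H),
      Fintype.card G = Fintype.card H ∧ 2 ^ d ≤ Fintype.card G ∧
      Fintype.card G ≤ 2 ^ (350000 * d) ∧ IsEmpty (G ≃* H) ∧
      IsEmpty (latinGraph (fun a b : G => a * b) ≃g latinGraph (fun a b : H => a * b)) ∧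
      (∀ (K : Type) [Field K] (M : Finset ((G × G) × (H × H) →₀ ℕ)),
        PCRefIn K (latinGraph fun a b : G => a * b) (latinGraph fun a b : H => a * b) M →
          Fintype.card G ^ d ≤ M.card) ∧
      (∀ M : Finset ((G × G) × (H × H) →₀ ℕ),
        PosRefIn (latinGraph fun a b : G => a * b) (latinGraph fun a b : H => a * b) M →
          Fintype.card G ^ d ≤ M.card) := by
  classical
  obtain ⟨D, hD1, hD2⟩ := exists_dat 7 (by norm_num) (by norm_num) (by norm_num) chi7 chi7_fix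
    (40 * d - 1)
  obtain ⟨D', hD1', hD2'⟩ := exists_dat 13 (by norm_num) (by norm_num) (by norm_num) chi13
    chi13_fix (40 * d - 1)
  have hC3 : Fintype.card C3 = 3 := by decide
  have hn : Fintype.card (GP D D') ≤ 7 ^ (107520 * d + 8101) := by
    rw [card_GP, hC3]
    exact arith d D.r D'.r hd hD2 hD2'
  have hcard : Fintype.card (GP D D') = Fintype.card (GQ D D') := by rw [card_GP, card_GQ]
  have hbig : 7 ^ D.r ≤ Fintype.card (GP D D') := by
    rw [card_GP, hC3]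
    have h2 : 1 ≤ 13 ^ D'.r := Nat.one_le_pow _ _ (by norm_num)
    have h3 : 1 ≤ 7 ^ D.r := Nat.one_le_pow _ _ (by norm_num)
    have h4 : 7 ^ D.r * 1 * 1 ≤ 7 ^ D.r * 13 ^ D'.r * 3 :=
      Nat.mul_le_mul (Nat.mul_le_mul_left _ h2) (by norm_num)
    rw [mul_one, mul_one] at h4
    calc 7 ^ D.r = 7 ^ D.r * 1 := (mul_one _).symm
      _ ≤ _ := Nat.mul_le_mul h4 (h3.trans h4)
  have hiso : IsEmpty (GP D D' ≃* GQ D D') :=
    not_iso_pair D D' (by decide) (c₀ := Multiplicative.ofAdd 1) (by decide) (by norm_num)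
      (by norm_num) (by norm_num) (by omega)
  have hT : Fintype.card (GP D D') ^ d ≤
      7 ^ ((40 * d - 1 + 1) * (6 * (4 * (3 * (40 * d - 1 + 4))) - (40 * d - 1 + 1))) := by
    calc Fintype.card (GP D D') ^ d ≤ (7 ^ (107520 * d + 8101)) ^ d :=
          Nat.pow_le_pow_left hn d
      _ = 7 ^ ((107520 * d + 8101) * d) := (pow_mul _ _ _).symm
      _ ≤ _ := by
          refine Nat.pow_le_pow_right (by norm_num) ?_
          have e1 : 40 * d - 1 + 1 = 40 * d := by omega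
          have e2 : 6 * (4 * (3 * (40 * d - 1 + 4))) - (40 * d - 1 + 1) = 2840 * d + 216 := by
            omega
          rw [e2, e1]
          nlinarith
  have hT' : Fintype.card (GP D D') ^ d ≤
      13 ^ ((40 * d - 1 + 1) * (6 * (4 * (3 * (40 * d - 1 + 4))) - (40 * d - 1 + 1))) :=
    hT.trans (Nat.pow_le_pow_left (by norm_num) _)
  refine ⟨GP D D', GQ D D', inferInstance, inferInstance, inferInstance, inferInstance, hcard,
    ?_, ?_, hiso, ?_, ?_, ?_⟩
  · refine le_trans ?_ hbig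
    calc 2 ^ d ≤ 2 ^ D.r := Nat.pow_le_pow_right (by norm_num) (by omega)
      _ ≤ 7 ^ D.r := Nat.pow_le_pow_left (by norm_num) _
  · refine hn.trans ?_
    calc 7 ^ (107520 * d + 8101) ≤ (2 ^ 3) ^ (107520 * d + 8101) :=
          Nat.pow_le_pow_left (by norm_num) _
      _ = 2 ^ (3 * (107520 * d + 8101)) := (pow_mul _ _ _).symm
      _ ≤ _ := Nat.pow_le_pow_right (by norm_num) (by omega)
  · refine ⟨fun Φ => ?_⟩
    obtain ⟨θ⟩ := group_iso_of_latin hcard (by
      rw [← hcard]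
      refine le_trans ?_ hbig
      calc 5 ≤ 7 ^ 1 := by norm_num
        _ ≤ _ := Nat.pow_le_pow_right (by norm_num) (by omega)) Φ
    exact hiso.false θ
  · intro K _ M hM
    exact (le_min hT hT').trans (pc_pair D D' (by norm_num) K hM)
  · intro M hM
    exact hT.trans (pos_pair D D' hM)

end Pool.Agent.J4H25.PS
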