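import Pool.Agent.J4H25.PS.Defs

/-!
# Functionals on polynomials modulo the Boolean equations
-/

set_option autoImplicit false

namespace Pool.Agent.J4H25.PS

open MvPolynomial

section

variable {K σ : Type} [Field K]

/-- The squarefree monomial with the same variables. -/
noncomputable def ind (m : σ →₀ ℕ) : σ →₀ ℕ := m.mapRange (fun e => if e = 0 then 0 else 1) (by simp)

theorem ind_apply (m : σ →₀ ℕ) (i : σ) : ind m i = if m i = 0 then 0 else 1 := rfl

theorem ind_support (m : σ →₀ ℕ) : (ind m).support = m.support := by
  ext i
  rw [Finsupp.mem_support_iff, Finsupp.mem_support_iff, ind_apply]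
  split_ifs with h <;> simp [h]

/-- Multilinear reduction. -/
noncomputable def red : MvPolynomial σ K →ₗ[K] MvPolynomial σ K :=
  (basisMonomials σ K).constr K fun m => monomial (ind m) 1

theorem red_monomial (m : σ →₀ ℕ) (c : K) : red (monomial m c) = monomial (ind m) c := by
  have h1 : monomial m c = c • monomial m (1 : K) := by
    rw [smul_monomial, smul_eq_mul, mul_one]
  have h2 : monomial m (1 : K) = basisMonomials σ K m := by
    rw [coe_basisMonomials]
  rw [h1, map_smul, h2, red, Module.Basis.constr_basis, smul_monomial, smul_eq_mul, mul_one]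

theorem eval_red (p : MvPolynomial σ K) (a : σ → K) (ha : ∀ i, a i = 0 ∨ a i = 1) :
    eval a (red p) = eval a p := by
  induction p using MvPolynomial.induction_on' with
  | monomial m c =>
    rw [red_monomial, eval_monomial, eval_monomial]
    congr 1
    rw [Finsupp.prod, Finsupp.prod, ind_support]
    refine Finset.prod_congr rfl fun i hi => ?_
    rw [ind_apply, if_neg (Finsupp.mem_support_iff.1 hi), pow_one]
    rcases ha i with h | h
    · rw [h, zero_pow (Finsupp.mem_support_iff.1 hi)]
    · rw [h, one_pow]
  | add p q hp hq => rw [map_add, map_add, map_add, hp, hq]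

theorem degreeOf_red (p : MvPolynomial σ K) (i : σ) : (red p).degreeOf i ≤ 1 := by
  induction p using MvPolynomial.induction_on' with
  | monomial m c =>
    rw [red_monomial]
    by_cases hc : c = 0
    · rw [hc, monomial_zero, degreeOf_zero]
      exact Nat.zero_le _
    · rw [degreeOf_monomial_eq _ _ hc, ind_apply]
      split_ifs <;> omega
  | add p q hp hq =>
    rw [map_add]
    exact (degreeOf_add_le _ _ _).trans (max_le hp hq)

theorem red_eq_of_boolEq [Finite σ] {p q : MvPolynomial σ K} (h : BoolEq p q) :
    red p = red q := by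
  classical
  rw [← sub_eq_zero]
  refine eq_zero_of_eval_zero_at_prod_finset _ (fun _ => {0, 1}) (fun i => ?_) (fun a ha => ?_)
  · rw [← map_sub]
    have h1 : ({0, 1} : Finset K).card = 2 := Finset.card_pair zero_ne_one
    rw [h1]
    exact lt_of_le_of_lt (degreeOf_red _ i) one_lt_two
  · have ha' : ∀ i, a i = 0 ∨ a i = 1 := fun i => by simpa using ha i
    rw [map_sub, eval_red p a ha', eval_red q a ha', h a ha', sub_self]

/-- A functional whose values at monomials depend only on the sets of variables. -/
theorem functional_congr [Finite σ] (Φ : MvPolynomial σ K →ₗ[K] K)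
    (hΦ : ∀ m : σ →₀ ℕ, Φ (monomial (ind m) 1) = Φ (monomial m 1))
    {p q : MvPolynomial σ K} (h : BoolEq p q) : Φ p = Φ q := by
  have h1 : ∀ r : MvPolynomial σ K, Φ (red r) = Φ r := by
    intro r
    induction r using MvPolynomial.induction_on' with
    | monomial m c =>
      rw [red_monomial]
      have e1 : ∀ m' : σ →₀ ℕ, monomial m' c = c • monomial m' (1 : K) := fun m' => by
        rw [smul_monomial, smul_eq_mul, mul_one]
      rw [e1, e1 m, map_smul, map_smul, hΦ]
    | add p q hp hq => rw [map_add, map_add, map_add, hp, hq]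
  rw [← h1 p, ← h1 q, red_eq_of_boolEq h]

theorem BoolEq.map {L : Type} [Field L] [Finite σ] (f : K →+* L) {p q : MvPolynomial σ K}
    (h : BoolEq p q) : BoolEq (MvPolynomial.map f p) (MvPolynomial.map f q) := by
  classical
  intro a ha
  let a' : σ → K := fun i => if a i = 0 then 0 else 1
  have ha1 : ∀ i, a' i = 0 ∨ a' i = 1 := fun i => by
    show (if a i = 0 then (0 : K) else 1) = 0 ∨ (if a i = 0 then (0 : K) else 1) = 1
    split_ifs <;> simp
  have ha2 : a = fun i => f (a' i) := by
    funext i
    show a i = f (if a i = 0 then (0 : K) else 1)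
    rcases ha i with h0 | h0
    · rw [h0, if_pos rfl, map_zero]
    · rw [h0, if_neg one_ne_zero, map_one]
  have h1 : ∀ r : MvPolynomial σ K, eval a (MvPolynomial.map f r) = f (eval a' r) := by
    intro r
    rw [ha2, eval_map]
    exact (eval₂_comp f a' r).symm
  rw [h1, h1, h a' ha1]

end

end Pool.Agent.J4H25.PS
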