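import Pool.Agent.J4H25.PS.Red

/-!
# Refutations of small degree
-/

set_option autoImplicit false
set_option linter.unusedSectionVars false

namespace Pool.Agent.J4H25.PS

open MvPolynomial Pool.Agent.TH658.Sos

section

variable {σ : Type} [Fintype σ] [DecidableEq σ]

/-- The monomials of degree at most `D`. -/
noncomputable def mons (σ : Type) [Fintype σ] [DecidableEq σ] : ℕ → Finset (σ →₀ ℕ)
  | 0 => {0}
  | D + 1 => mons σ D ∪ ((Finset.univ ×ˢ mons σ D).image fun x => Finsupp.single x.1 1 + x.2)

theorem card_mons (D : ℕ) : (mons σ D).card ≤ (Fintype.card σ + 1) ^ D := by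
  induction D with
  | zero => simp [mons]
  | succ D ih =>
    unfold mons
    refine (Finset.card_union_le _ _).trans ?_
    have h1 : ((Finset.univ ×ˢ mons σ D).image fun x : σ × (σ →₀ ℕ) =>
        Finsupp.single x.1 1 + x.2).card ≤ Fintype.card σ * (mons σ D).card := by
      refine Finset.card_image_le.trans ?_
      rw [Finset.card_product, Finset.card_univ]
    calc (mons σ D).card + ((Finset.univ ×ˢ mons σ D).image fun x : σ × (σ →₀ ℕ) =>
          Finsupp.single x.1 1 + x.2).card ≤
          (mons σ D).card + Fintype.card σ * (mons σ D).card := Nat.add_le_add_left h1 _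
      _ = (Fintype.card σ + 1) * (mons σ D).card := by ring
      _ ≤ (Fintype.card σ + 1) * (Fintype.card σ + 1) ^ D := Nat.mul_le_mul_left _ ih
      _ = _ := by rw [pow_succ]; ring

theorem mem_mons (D : ℕ) : ∀ m : σ →₀ ℕ, (m.sum fun _ e => e) ≤ D → m ∈ mons σ D := by
  induction D with
  | zero =>
    intro m hm
    have h1 : m = 0 := by
      ext i
      by_contra h
      have h2 : i ∈ m.support := Finsupp.mem_support_iff.2 h
      have h3 : m i ≤ m.sum fun _ e => e :=
        Finset.single_le_sum (f := fun i => m i) (fun _ _ => Nat.zero_le _) h2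
      have h4 : m i = 0 := by omega
      exact h h4
    rw [h1]
    exact Finset.mem_singleton_self _
  | succ D ih =>
    intro m hm
    unfold mons
    rw [Finset.mem_union]
    by_cases h0 : m = 0
    · left
      refine ih m ?_
      rw [h0, Finsupp.sum_zero_index]
      exact Nat.zero_le _
    · right
      obtain ⟨i, hi⟩ := Finsupp.support_nonempty_iff.2 h0
      have hi' : m i ≠ 0 := Finsupp.mem_support_iff.1 hi
      let m' : σ →₀ ℕ := m - Finsupp.single i 1
      have h1 : Finsupp.single i 1 + m' = m := by
        ext j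
        show (Finsupp.single i 1 : σ →₀ ℕ) j + (m j - (Finsupp.single i 1 : σ →₀ ℕ) j) = m j
        rw [Finsupp.single_apply]
        split_ifs with h
        · subst h
          omega
        · omega
      rw [Finset.mem_image]
      refine ⟨(i, m'), Finset.mem_product.2 ⟨Finset.mem_univ _, ih m' ?_⟩, h1⟩
      have h2 : ((Finsupp.single i 1 + m').sum fun _ e => e) = 1 + m'.sum fun _ e => e := by
        rw [Finsupp.sum_add_index' (fun _ => rfl) (fun _ _ _ => rfl),
          Finsupp.sum_single_index rfl]
      rw [h1] at h2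
      omega

end

section

variable (K : Type) [Field K] {V V' : Type} [Fintype V] [Fintype V'] [DecidableEq V]
  [DecidableEq V'] (G : SimpleGraph V) (H : SimpleGraph V') (D : ℕ)

theorem support_mons {p : MvPolynomial (V × V') K} (h : p.totalDegree ≤ D) :
    p.support ⊆ mons (V × V') D := fun m hm => mem_mons D m ((le_totalDegree hm).trans h)

theorem pcIn_zero : PCIn (IsoAxiom K G H) (mons (V × V') D) 0 ∨ IsEmpty (V × V') := by
  by_cases h : Nonempty (V × V')
  · left
    obtain ⟨u, v⟩ := h
    refine PCIn.ax _ _ (IsoAxiom.bool u v) (fun a ha => ?_) (by simp)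
    rw [map_sub, map_pow, eval_X, map_zero]
    rcases ha (u, v) with h1 | h1
    · rw [h1]
      ring
    · rw [h1]
      ring
  · right
    exact not_nonempty_iff.1 h

/-- The polynomials with a derivation in degree `D`. -/
noncomputable def Id (hne : Nonempty (V × V')) : Submodule K (MvPolynomial (V × V') K) where
  carrier := {p | p.totalDegree ≤ D ∧ PCIn (IsoAxiom K G H) (mons (V × V') D) p}
  zero_mem' := ⟨by simp, (pcIn_zero K G H D).resolve_right fun h => h.false hne.some⟩
  add_mem' := by
    rintro p q ⟨h1, h2⟩ ⟨h3, h4⟩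
    have h5 : (p + q).totalDegree ≤ D := (totalDegree_add p q).trans (max_le h1 h3)
    refine ⟨h5, PCIn.lin 1 1 p q _ h2 h4 (fun a _ => ?_) (support_mons K D h5)⟩
    rw [map_one, one_mul, one_mul]
  smul_mem' := by
    rintro c p ⟨h1, h2⟩
    have h5 : (c • p).totalDegree ≤ D := (totalDegree_smul_le c p).trans h1
    refine ⟨h5, PCIn.lin c 0 p p _ h2 h2 (fun a _ => ?_) (support_mons K D h5)⟩
    rw [map_zero, zero_mul, add_zero, smul_eq_C_mul]

variable {K G H D} {hne : Nonempty (V × V')}

theorem Id.ax {p : MvPolynomial (V × V') K} (h : IsoAxiom K G H p) (hd : p.totalDegree ≤ D) :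
    p ∈ Id K G H D hne := ⟨hd, PCIn.ax p p h (fun _ _ => rfl) (support_mons K D hd)⟩

theorem Id.mul {p : MvPolynomial (V × V') K} (hp : p ∈ Id K G H D hne) (i : V × V')
    (hd : p.totalDegree + 1 ≤ D) : X i * p ∈ Id K G H D hne := by
  have h1 : (X i * p).totalDegree ≤ D := by
    refine (totalDegree_mul _ _).trans ?_
    rw [totalDegree_X]
    omega
  exact ⟨h1, PCIn.mul i p _ hp.2 (fun _ _ => rfl) (support_mons K D h1)⟩

theorem Id.bool {p : MvPolynomial (V × V') K} (hd : p.totalDegree ≤ D) (h : BoolEq 0 p) :
    p ∈ Id K G H D hne := by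
  have h0 := (Id K G H D hne).zero_mem
  refine ⟨hd, PCIn.lin 0 0 0 0 p h0.2 h0.2 ?_ (support_mons K D hd)⟩
  rwa [mul_zero, add_zero]

/-- The product of the variables of a list. -/
noncomputable def mo (K : Type) [Field K] {σ : Type} (l : List σ) : MvPolynomial σ K :=
  (l.map fun i => X i).prod

theorem mo_cons {σ : Type} (i : σ) (l : List σ) : mo K (i :: l) = X i * mo K l := by
  unfold mo
  rw [List.map_cons, List.prod_cons]

theorem deg_mo {σ : Type} (l : List σ) : (mo K l).totalDegree ≤ l.length := by
  induction l with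
  | nil => simp [mo]
  | cons i l ih =>
    rw [mo_cons, List.length_cons]
    refine (totalDegree_mul _ _).trans ?_
    rw [totalDegree_X]
    omega

theorem Id.mo_mul {p : MvPolynomial (V × V') K} (hp : p ∈ Id K G H D hne) (l : List (V × V'))
    (hd : p.totalDegree + l.length ≤ D) : mo K l * p ∈ Id K G H D hne := by
  induction l with
  | nil =>
    have h1 : mo K ([] : List (V × V')) = 1 := rfl
    rwa [h1, one_mul]
  | cons i l ih =>
    rw [List.length_cons] at hd
    rw [mo_cons, mul_assoc]
    refine Id.mul (ih (by omega)) i ?_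
    have h1 := totalDegree_mul (mo K l) p
    have h2 := deg_mo (K := K) l
    omega

theorem mo_bool {σ : Type} {l : List σ} {i : σ} (hi : i ∈ l) (a : σ → K)
    (ha : ∀ i, a i = 0 ∨ a i = 1) : eval a (mo K l) * a i = eval a (mo K l) := by
  induction l with
  | nil => simp at hi
  | cons j l ih =>
    rw [mo_cons, map_mul, eval_X]
    rcases List.mem_cons.1 hi with h | h
    · subst h
      rcases ha i with h1 | h1
      · rw [h1]
        ring
      · rw [h1]
        ring
    · rw [mul_assoc, ih h]

theorem deg_row (u : V) : (∑ v : V', X (u, v) - 1 : MvPolynomial (V × V') K).totalDegree ≤ 1 := by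
  refine (totalDegree_sub _ _).trans (max_le ?_ (by simp))
  refine (totalDegree_finsetSum _ _).trans ?_
  refine Finset.sup_le fun v _ => ?_
  rw [totalDegree_X]

theorem deg_col (v : V') : (∑ u : V, X (u, v) - 1 : MvPolynomial (V × V') K).totalDegree ≤ 1 := by
  refine (totalDegree_sub _ _).trans (max_le ?_ (by simp))
  refine (totalDegree_finsetSum _ _).trans ?_
  refine Finset.sup_le fun u _ => ?_
  rw [totalDegree_X]

theorem Id.row (l : List (V × V')) (hl : l.length + 2 ≤ D) (u : V) :
    ∑ v : V', mo K l * X (u, v) - mo K l ∈ Id K G H D hne := by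
  have h1 := Id.mo_mul (hne := hne) (Id.ax (D := D) (IsoAxiom.row (G := G) (H := H) (K := K) u)
    ((deg_row u).trans (by omega))) l (by
      have := deg_row (K := K) (V' := V') u
      omega)
  rwa [mul_sub, mul_one, Finset.mul_sum] at h1

theorem Id.col (l : List (V × V')) (hl : l.length + 2 ≤ D) (v : V') :
    ∑ u : V, mo K l * X (u, v) - mo K l ∈ Id K G H D hne := by
  have h1 := Id.mo_mul (hne := hne) (Id.ax (D := D) (IsoAxiom.col (G := G) (H := H) (K := K) v)
    ((deg_col v).trans (by omega))) l (by
      have := deg_col (K := K) (V := V) v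
      omega)
  rwa [mul_sub, mul_one, Finset.mul_sum] at h1

theorem Id.pair (l : List (V × V')) (hl : l.length + 2 ≤ D) {x t : V} {y s : V'}
    (h : ¬ ((x = t ↔ y = s) ∧ (G.Adj x t ↔ H.Adj y s))) :
    mo K l * (X (x, y) * X (t, s)) ∈ Id K G H D hne := by
  have hd : (X (x, y) * X (t, s) : MvPolynomial (V × V') K).totalDegree ≤ 2 := by
    refine (totalDegree_mul _ _).trans ?_
    rw [totalDegree_X, totalDegree_X]
  exact Id.mo_mul (Id.ax (IsoAxiom.pair x t y s h) (hd.trans (by omega))) l (by omega)

/-- A vertex that goes to a vertex with another pattern. -/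
theorem Id.mis (l : List (V × V')) (hl : l.length + 2 ≤ D) {x t : V} {y s : V'}
    (h : ¬ ((x = t ↔ y = s) ∧ (G.Adj x t ↔ H.Adj y s)))
    (ht : mo K l * X (t, s) - mo K l ∈ Id K G H D hne) :
    mo K l * X (x, y) ∈ Id K G H D hne := by
  have h1 := Id.pair (K := K) (hne := hne) l hl h
  have h2 : X (x, y) * (mo K l * X (t, s) - mo K l) ∈ Id K G H D hne := by
    refine Id.mul ht _ ?_
    have e1 := totalDegree_sub (mo K l * X (t, s)) (mo K l)
    have e2 := totalDegree_mul (mo K l) (X (t, s) : MvPolynomial (V × V') K)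
    rw [totalDegree_X] at e2
    have e3 := deg_mo (K := K) l
    have e4 : max (mo K l * X (t, s)).totalDegree (mo K l).totalDegree ≤ l.length + 1 :=
      max_le (by omega) (by omega)
    omega
  have h3 := (Id K G H D hne).sub_mem h1 h2
  have h4 : mo K l * (X (x, y) * X (t, s)) - X (x, y) * (mo K l * X (t, s) - mo K l) =
      mo K l * X (x, y) := by ring
  rwa [h4] at h3

/-- The vertices that are determined by the vertices of the list `U`. -/
inductive Known {V : Type} (G : SimpleGraph V) (U : List V) : V → Prop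
  | base (u : V) (h : u ∈ U) : Known G U u
  | step (w : V) (T : List V) (hT : ∀ t ∈ T, Known G U t)
      (hu : ∀ w', (∀ t ∈ T, (w' = t ↔ w = t) ∧ (G.Adj w' t ↔ G.Adj w t)) → w' = w) :
      Known G U w

theorem known_der (l : List (V × V')) (hl : l.length + 2 ≤ D) {w : V}
    (hw : Known G (l.map Prod.fst) w) : mo K l ∈ Id K G H D hne ∨
      ∃ y, mo K l * X (w, y) - mo K l ∈ Id K G H D hne := by
  classical
  induction hw with
  | base u h =>
    right
    obtain ⟨⟨u', y⟩, hx, rfl⟩ := List.mem_map.1 h
    refine ⟨y, Id.bool ?_ fun a ha => ?_⟩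
    · show (mo K l * X (u', y) - mo K l).totalDegree ≤ D
      have e1 := totalDegree_sub (mo K l * X (u', y)) (mo K l)
      have e2 := totalDegree_mul (mo K l) (X (u', y) : MvPolynomial (V × V') K)
      rw [totalDegree_X] at e2
      have e3 := deg_mo (K := K) l
      have e4 : max (mo K l * X (u', y)).totalDegree (mo K l).totalDegree ≤ l.length + 1 :=
        max_le (by omega) (by omega)
      omega
    · rw [map_zero, map_sub, map_mul, eval_X, mo_bool hx a ha, sub_self]
  | step w T hT hu ih =>
    by_cases hm : mo K l ∈ Id K G H D hne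
    · exact Or.inl hm
    have ih2 : ∀ t ∈ T, ∃ y, mo K l * X (t, y) - mo K l ∈ Id K G H D hne := fun t ht =>
      (ih t ht).resolve_left hm
    let F : V → V' := fun t => if h : t ∈ T then (ih2 t h).choose else hne.some.2
    have hF : ∀ t ∈ T, mo K l * X (t, F t) - mo K l ∈ Id K G H D hne := by
      intro t ht
      have h1 : F t = (ih2 t ht).choose := dif_pos ht
      rw [h1]
      exact (ih2 t ht).choose_spec
    have hmis : ∀ x y, ¬ (∀ t ∈ T, (x = t ↔ y = F t) ∧ (G.Adj x t ↔ H.Adj y (F t))) →
        mo K l * X (x, y) ∈ Id K G H D hne := by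
      intro x y h
      push Not at h
      obtain ⟨t, ht, h1⟩ := h
      refine Id.mis l hl (t := t) (s := F t) ?_ (hF t ht)
      rintro ⟨h2, h3⟩
      exact absurd h3 (fun h3 => (h1 h2).elim (fun h => h.2 (h3.1 h.1)) fun h => h.1 (h3.2 h.2))
    -- a matching image is forced by the column sum
    have hcol : ∀ y, (∀ t ∈ T, (w = t ↔ y = F t) ∧ (G.Adj w t ↔ H.Adj y (F t))) →
        mo K l * X (w, y) - mo K l ∈ Id K G H D hne := by
      intro y hy
      have h1 := Id.col (K := K) (G := G) (H := H) (hne := hne) l hl y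
      have h2 : ∀ x, x ≠ w → mo K l * X (x, y) ∈ Id K G H D hne := by
        intro x hx
        refine hmis x y fun h3 => hx (hu x fun t ht => ?_)
        have h4 := h3 t ht
        have h5 := hy t ht
        exact ⟨h4.1.trans h5.1.symm, h4.2.trans h5.2.symm⟩
      have h3 : ∑ x ∈ Finset.univ.erase w, mo K l * X (x, y) ∈ Id K G H D hne :=
        Submodule.sum_mem _ fun x hx => h2 x (Finset.ne_of_mem_erase hx)
      have h4 := (Id K G H D hne).sub_mem h1 h3
      have h5 : ∑ u : V, mo K l * X (u, y) - mo K l -
          ∑ x ∈ Finset.univ.erase w, mo K l * X (x, y) = mo K l * X (w, y) - mo K l := by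
        rw [← Finset.add_sum_erase Finset.univ (fun x => mo K l * X (x, y)) (Finset.mem_univ w)]
        ring
      rwa [h5] at h4
    by_cases hex : ∃ y, ∀ t ∈ T, (w = t ↔ y = F t) ∧ (G.Adj w t ↔ H.Adj y (F t))
    · obtain ⟨y, hy⟩ := hex
      exact Or.inr ⟨y, hcol y hy⟩
    · left
      have h1 := Id.row (K := K) (G := G) (H := H) (hne := hne) l hl w
      have h2 : ∑ y : V', mo K l * X (w, y) ∈ Id K G H D hne :=
        Submodule.sum_mem _ fun y _ => hmis w y fun h => hex ⟨y, h⟩
      have h3 := (Id K G H D hne).sub_mem h2 h1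
      have h4 : ∑ v : V', mo K l * X (w, v) - (∑ v : V', mo K l * X (w, v) - mo K l) =
          mo K l := by ring
      rwa [h4] at h3

theorem mo_mem (hcard : Fintype.card V = Fintype.card V') (hiso : IsEmpty (G ≃g H))
    (l : List (V × V')) (hl : l.length + 2 ≤ D) (hk : ∀ w, Known G (l.map Prod.fst) w) :
    mo K l ∈ Id K G H D hne := by
  classical
  by_contra hm
  have h1 : ∀ w, ∃ y, mo K l * X (w, y) - mo K l ∈ Id K G H D hne := fun w =>
    (known_der l hl (hk w)).resolve_left hm
  choose F hF using h1
  have h2 : ∀ x t, (x = t ↔ F x = F t) ∧ (G.Adj x t ↔ H.Adj (F x) (F t)) := by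
    intro x t
    by_contra h
    have h3 := Id.mis l hl h (hF t)
    have h4 := (Id K G H D hne).sub_mem h3 (hF x)
    have h5 : mo K l * X (x, F x) - (mo K l * X (x, F x) - mo K l) = mo K l := by ring
    rw [h5] at h4
    exact hm h4
  have hinj : Function.Injective F := fun x t h => (h2 x t).1.2 h
  have hbij : Function.Bijective F := (Fintype.bijective_iff_injective_and_card F).2 ⟨hinj, hcard⟩
  exact hiso.false
    { toEquiv := Equiv.ofBijective F hbij
      map_rel_iff' := fun {x t} => (h2 x t).2.symm }

theorem one_mem (U : List V) (h : ∀ l : List (V × V'), l.map Prod.fst = U →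
    mo K l ∈ Id K G H D hne) (hU : U.length + 2 ≤ D) : (1 : MvPolynomial (V × V') K) ∈
      Id K G H D hne := by
  classical
  induction U with
  | nil => exact h [] rfl
  | cons u U ih =>
    rw [List.length_cons] at hU
    refine ih (fun l hl => ?_) (by omega)
    have hlen : l.length = U.length := by rw [← hl, List.length_map]
    have h1 := Id.row (K := K) (G := G) (H := H) (hne := hne) (D := D) l (by omega) u
    have h2 : ∑ y : V', mo K l * X (u, y) ∈ Id K G H D hne := by
      refine Submodule.sum_mem _ fun y _ => ?_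
      have h3 := h ((u, y) :: l) (by rw [List.map_cons, hl])
      rwa [mo_cons, mul_comm] at h3
    have h3 := (Id K G H D hne).sub_mem h2 h1
    have h4 : ∑ v : V', mo K l * X (u, v) - (∑ v : V', mo K l * X (u, v) - mo K l) =
        mo K l := by ring
    rwa [h4] at h3

/-- If all vertices are determined by the vertices of a list then there is a refutation of small
degree. -/
theorem refutes_of_known (K : Type) [Field K] (hne : Nonempty (V × V'))
    (hcard : Fintype.card V = Fintype.card V') (hiso : IsEmpty (G ≃g H)) (U : List V)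
    (hk : ∀ w, Known G U w) : PCRefIn K G H (mons (V × V') (U.length + 2)) := by
  refine (one_mem (D := U.length + 2) (hne := hne) U (fun l hl => ?_) le_rfl).2
  refine mo_mem hcard hiso l ?_ fun w => by rw [hl]; exact hk w
  rw [← hl, List.length_map]

end

end Pool.Agent.J4H25.PS
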