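import Pool.Agent.J4H25.PS.Clo
import Pool.Agent.J4H25.PS.Main

/-!
# Both bounds
-/

set_option autoImplicit false
set_option linter.unusedSectionVars false

namespace Pool.Agent.J4H25.PS

open Pool.Agent.W185.LSQ Pool.Agent.W879.GW

theorem upper (G H : Type) [Group G] [Group H] [Fintype G] [Fintype H]
    (hcard : Fintype.card G = Fintype.card H) (h5 : 5 ≤ Fintype.card G)
    (hiso : IsEmpty (G ≃* H)) (K : Type) [Field K] :
    ∃ M : Finset ((G × G) × (H × H) →₀ ℕ),
      M.card ≤ Fintype.card G ^ (40 * (Nat.log 2 (Fintype.card G) + 1)) ∧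
      PCRefIn K (latinGraph fun a b : G => a * b) (latinGraph fun a b : H => a * b) M := by
  classical
  have hisoL : IsEmpty (latinGraph (fun a b : G => a * b) ≃g latinGraph (fun a b : H => a * b)) := by
    refine ⟨fun Φ => ?_⟩
    obtain ⟨θ⟩ := group_iso_of_latin hcard (by rw [← hcard]; exact h5) Φ
    exact hiso.false θ
  obtain ⟨l, hl, hgen⟩ := exists_gens (Γ := G) (Nat.log 2 (Fintype.card G) + 1)
  have htop : Subgroup.closure {g | g ∈ l} = ⊤ := by
    rcases hgen with h | h
    · exact h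
    · exfalso
      have h1 : Nat.card (Subgroup.closure {g | g ∈ l}) ≤ Nat.card G :=
        Subgroup.card_le_card_group _
      rw [Nat.card_eq_fintype_card (α := G)] at h1
      have h2 := Nat.lt_pow_succ_log_self (b := 2) (by norm_num) (Fintype.card G)
      exact absurd (h.trans h1) (not_le.2 h2)
  have htop2 : Subgroup.closure {g | g ∈ (1 : G) :: l} = ⊤ := by
    rw [eq_top_iff, ← htop]
    exact Subgroup.closure_mono fun x hx => List.mem_cons_of_mem _ hx
  obtain ⟨x₁, x₂, x₃, h12, h13, h23⟩ := Fintype.two_lt_card_iff.1 (show 2 < Fintype.card G by omega)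
  let U : List (G × G) := ((1 : G) :: l).flatMap fun h => [(h, x₁), (h, x₂), (h, x₃)]
  have hUlen : U.length = 3 * (l.length + 1) := by
    show (((1 : G) :: l).flatMap fun h => [(h, x₁), (h, x₂), (h, x₃)]).length = _
    have h1 : ∀ L : List G, (L.flatMap fun h => [(h, x₁), (h, x₂), (h, x₃)]).length =
        3 * L.length := by
      intro L
      induction L with
      | nil => rfl
      | cons a L ih =>
        have e : ([(a, x₁), (a, x₂), (a, x₃)] : List (G × G)).length = 3 := rfl
        rw [List.flatMap_cons, List.length_append, ih, e, List.length_cons]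
        omega
    rw [h1, List.length_cons]
  have hUmem : ∀ h ∈ (1 : G) :: l, (h, x₁) ∈ U ∧ (h, x₂) ∈ U ∧ (h, x₃) ∈ U := by
    intro h hh
    refine ⟨?_, ?_, ?_⟩ <;> exact List.mem_flatMap.2 ⟨h, hh, by simp⟩
  have hk : ∀ w, Known (LG G) U w := known_all h12 h13 h23 (by simp) htop2
    (fun h hh => Known.base _ (hUmem h hh).1) (fun h hh => Known.base _ (hUmem h hh).2.1)
    (fun h hh => Known.base _ (hUmem h hh).2.2)
  have hne : Nonempty ((G × G) × (H × H)) := ⟨((1, 1), (1, 1))⟩
  refine ⟨mons _ (U.length + 2), ?_, refutes_of_known K hne ?_ hisoL U hk⟩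
  · refine (card_mons _).trans ?_
    have hσ : Fintype.card ((G × G) × (H × H)) + 1 ≤ Fintype.card G ^ 5 := by
      rw [Fintype.card_prod, Fintype.card_prod, Fintype.card_prod, ← hcard]
      generalize Fintype.card G = n at h5 ⊢
      have h1 : 1 ≤ n * n * (n * n) := by
        have : 1 ≤ n := by omega
        exact Nat.one_le_iff_ne_zero.2 (by positivity)
      calc n * n * (n * n) + 1 ≤ 2 * (n * n * (n * n)) := by omega
        _ ≤ n * (n * n * (n * n)) := Nat.mul_le_mul_right _ (by omega)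
        _ = n ^ 5 := by ring
    refine (Nat.pow_le_pow_left hσ _).trans ?_
    rw [← pow_mul]
    refine Nat.pow_le_pow_right (by omega) ?_
    rw [hUlen]
    omega
  · rw [Fintype.card_prod, Fintype.card_prod, hcard]

theorem posRefIn_of_pc {V V' : Type} [Fintype V] [Fintype V'] {G : SimpleGraph V}
    {H : SimpleGraph V'} {M : Finset (V × V' →₀ ℕ)} (h : PCRefIn ℝ G H M) : PosRefIn G H M := by
  refine ⟨0, fun i => i.elim0, 1, fun i => i.elim0, fun a _ => ?_, h⟩
  simp

theorem both :
    (∀ d : ℕ, 1 ≤ d → ∃ (G H : Type) (_ : Group G) (_ : Group H) (_ : Fintype G) (_ : Fintype H),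
      Fintype.card G = Fintype.card H ∧ 2 ^ d ≤ Fintype.card G ∧
      Fintype.card G ≤ 2 ^ (350000 * d) ∧ IsEmpty (G ≃* H) ∧
      (∀ (K : Type) [Field K] (M : Finset ((G × G) × (H × H) →₀ ℕ)),
        PCRefIn K (latinGraph fun a b : G => a * b) (latinGraph fun a b : H => a * b) M →
          Fintype.card G ^ d ≤ M.card) ∧
      (∀ M : Finset ((G × G) × (H × H) →₀ ℕ),
        PosRefIn (latinGraph fun a b : G => a * b) (latinGraph fun a b : H => a * b) M →
          Fintype.card G ^ d ≤ M.card)) ∧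
    (∀ (G H : Type) [Group G] [Group H] [Fintype G] [Fintype H],
      Fintype.card G = Fintype.card H → 5 ≤ Fintype.card G → IsEmpty (G ≃* H) →
      (∀ (K : Type) [Field K], ∃ M : Finset ((G × G) × (H × H) →₀ ℕ),
        M.card ≤ Fintype.card G ^ (40 * (Nat.log 2 (Fintype.card G) + 1)) ∧
        PCRefIn K (latinGraph fun a b : G => a * b) (latinGraph fun a b : H => a * b) M) ∧
      ∃ M : Finset ((G × G) × (H × H) →₀ ℕ),
        M.card ≤ Fintype.card G ^ (40 * (Nat.log 2 (Fintype.card G) + 1)) ∧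
        PosRefIn (latinGraph fun a b : G => a * b) (latinGraph fun a b : H => a * b) M) := by
  refine ⟨fun d hd => ?_, fun G H _ _ _ _ hcard h5 hiso => ⟨fun K _ => ?_, ?_⟩⟩
  · obtain ⟨G, H, i1, i2, i3, i4, h1, h2, h3, h4, -, h6, h7⟩ := lower d hd
    exact ⟨G, H, i1, i2, i3, i4, h1, h2, h3, h4, h6, h7⟩
  · exact upper G H hcard h5 hiso K
  · obtain ⟨M, h1, h2⟩ := upper G H hcard h5 hiso ℝ
    exact ⟨M, h1, posRefIn_of_pc h2⟩

end Pool.Agent.J4H25.PS
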